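import Pool.Agent.Helper61A.PW.S

/-!
Project PW (helper61): the pointwise computation.
-/

set_option autoImplicit false
open Filter Topology Complex
open scoped ContDiff

namespace Pool.Agent.Helper61A.PW

noncomputable section

/-- `h` times the partial derivatives of `f` at `z` are `a` and `b` -/
def HD (h : ℝ) (f : ℂ → ℝ) (z : ℂ) (a b : ℝ) : Prop :=
  ∃ L : ℂ →L[ℝ] ℝ, HasFDerivAt f L z ∧ h * L 1 = a ∧ h * L I = b

variable {h : ℝ} {f g : ℂ → ℝ} {z : ℂ} {a b c d : ℝ}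

lemma HD.add (hf : HD h f z a b) (hg : HD h g z c d) :
    HD h (fun w => f w + g w) z (a + c) (b + d) := by
  obtain ⟨L, l1, l2, l3⟩ := hf
  obtain ⟨M, m1, m2, m3⟩ := hg
  exact ⟨L + M, l1.add m1, by rw [← l2, ← m2]; simp [mul_add], by rw [← l3, ← m3]; simp [mul_add]⟩

lemma HD.sub (hf : HD h f z a b) (hg : HD h g z c d) :
    HD h (fun w => f w - g w) z (a - c) (b - d) := by
  obtain ⟨L, l1, l2, l3⟩ := hf
  obtain ⟨M, m1, m2, m3⟩ := hg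
  exact ⟨L - M, l1.sub m1, by rw [← l2, ← m2]; simp [mul_sub], by rw [← l3, ← m3]; simp [mul_sub]⟩

lemma HD.mul (hf : HD h f z a b) (hg : HD h g z c d) :
    HD h (fun w => f w * g w) z (a * g z + f z * c) (b * g z + f z * d) := by
  obtain ⟨L, l1, l2, l3⟩ := hf
  obtain ⟨M, m1, m2, m3⟩ := hg
  refine ⟨f z • M + g z • L, l1.mul m1, ?_, ?_⟩
  · rw [← l2, ← m2]; simp; ring
  · rw [← l3, ← m3]; simp; ring

lemma HD.comp {φ : ℝ → ℝ} (hφ : HasDerivAt φ c (f z)) (hf : HD h f z a b) :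
    HD h (fun w => φ (f w)) z (c * a) (c * b) := by
  obtain ⟨L, l1, l2, l3⟩ := hf
  refine ⟨c • L, hφ.comp_hasFDerivAt z l1, ?_, ?_⟩
  · rw [← l2]; simp; ring
  · rw [← l3]; simp; ring

lemma HD.cst (c : ℝ) : HD h (fun _ => c) z 0 0 :=
  ⟨0, hasFDerivAt_const c z, by simp, by simp⟩

lemma HD.fd (H : HD h f z a b) :
    DifferentiableAt ℝ f z ∧ h * fderiv ℝ f z 1 = a ∧ h * fderiv ℝ f z I = b := by
  obtain ⟨L, l1, l2, l3⟩ := H
  rw [l1.fderiv]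
  exact ⟨l1.differentiableAt, l2, l3⟩

lemma HD.of (hf : DifferentiableAt ℝ f z) :
    HD h f z (h * fderiv ℝ f z 1) (h * fderiv ℝ f z I) :=
  ⟨_, hf.hasFDerivAt, rfl, rfl⟩

/-- the leading part -/
lemma alg_T0 {u p q a ρ R η x e d k l N M Δ m : ℝ} (hR : 0 < R) (ht : 0 < 1 - x ^ 2)
    (har : a * ρ = 1) (hu : u = x * R) (hN : u * N = M + a ^ 2 * (p ^ 2 + q ^ 2) * Δ)
    (hR2 : R ^ 2 = u ^ 2 + a * (p ^ 2 + q ^ 2) + η ^ 2)
    (r1 : (1 - x ^ 2) * (l + x * d) = 2 * x * k)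
    (r2 : (1 - x ^ 2) * d - x * e = m) :
    d * ((p ^ 2 + q ^ 2) / R - u * N / R ^ 3) - e * (ρ * u) - l * N / R ^ 2 +
      l * u * M / R ^ 4 + k * M / R ^ 3 + 2 * a * k * Δ / R =
    ρ * R * m - ρ * η ^ 2 * d / R - M / R ^ 3 * (k + x ^ 2 * d) +
      2 * a * k * η ^ 2 * Δ / (R ^ 3 * (1 - x ^ 2)) := by
  obtain ⟨g, hg⟩ : ∃ g, g = p ^ 2 + q ^ 2 := ⟨_, rfl⟩
  rw [← hg] at hN hR2 ⊢
  obtain ⟨t, htt⟩ : ∃ t, t = 1 - x ^ 2 := ⟨_, rfl⟩
  rw [← htt] at ht r1 r2 ⊢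
  have x2 : x ^ 2 = 1 - t := by rw [htt]; ring
  have G : a * g = R ^ 2 * t - η ^ 2 := by
    rw [hu] at hR2
    rw [htt]; linarith
  have gg : g = ρ * (R ^ 2 * t - η ^ 2) := by
    rw [← G]
    calc g = (a * ρ) * g := by rw [har, one_mul]
      _ = ρ * (a * g) := by ring
  have key : (d * (g / R - u * N / R ^ 3) - e * (ρ * u) - l * N / R ^ 2 +
      l * u * M / R ^ 4 + k * M / R ^ 3 + 2 * a * k * Δ / R) * (R ^ 3 * t) =
      d * t * g * R ^ 2 - e * ρ * u * t * R ^ 3 - (t * (l + x * d)) * (R * N)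
      + (x * (t * (l + x * d)) - t * x ^ 2 * d + k * t) * M + 2 * a * k * Δ * t * R ^ 2 := by
    rw [hu]
    field_simp
    ring
  have key2 : (ρ * R * m - ρ * η ^ 2 * d / R - M / R ^ 3 * (k + x ^ 2 * d) +
      2 * a * k * η ^ 2 * Δ / (R ^ 3 * t)) * (R ^ 3 * t) =
      ρ * R ^ 4 * m * t - ρ * η ^ 2 * d * R ^ 2 * t - M * (k + x ^ 2 * d) * t +
      2 * a * k * η ^ 2 * Δ := by
    field_simp
  have hne : R ^ 3 * t ≠ 0 := by positivity
  refine mul_right_cancel₀ hne ?_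
  rw [key, key2, r1, ← r2, gg]
  have hN' : x * (R * N) = M + a * (R ^ 2 * t - η ^ 2) * Δ := by
    rw [← G]
    have : x * (R * N) = u * N := by rw [hu]; ring
    rw [this, hN]; ring
  rw [hu]
  linear_combination (-2 * k) * hN' + (2 * k * M) * x2

/-- the bound -/
lemma alg_main {u p q A B D a ρ R η x e d k l α₁ α₂ : ℝ} (ha : 0 < a) (hη : 0 < η) (hR : 0 < R)
    (hx : x ∈ Set.Ioo (-1 : ℝ) 1) (har : a * ρ = 1) (hu : u = x * R)
    (he : u = -(a * (A + D))) (hR2 : R ^ 2 = u ^ 2 + a * (p ^ 2 + q ^ 2) + η ^ 2)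
    (r1 : (1 - x ^ 2) * (l + x * d) = 2 * x * k)
    (r2 : (1 - x ^ 2) * d - x * e = mm - |x|) (d0 : 0 ≤ d) (d1 : d ≤ mm) (k0 : 0 ≤ k)
    (k1 : k ≤ mm / 4 * (1 - x ^ 2)) (l1 : |l| ≤ 1) :
    (d * ((p ^ 2 + q ^ 2) / R - u * (p * (a * (B * q - D * p)) + q * (a * (B * p - A * q)) +
        (p ^ 2 + q ^ 2) * (p * α₁ + q * α₂) / 2) / R ^ 3) - e * (ρ * u) -
      l * ((p * (a * (B * q - D * p)) + q * (a * (B * p - A * q))) / R ^ 2 -
        u * ((a * (B * q - D * p)) ^ 2 + (a * (B * p - A * q)) ^ 2 + (p ^ 2 + q ^ 2) *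
          (α₁ * (a * (B * q - D * p)) + α₂ * (a * (B * p - A * q))) / 2) / R ^ 4) +
      k * ((a * (B * q - D * p)) ^ 2 + (a * (B * p - A * q)) ^ 2 + (p ^ 2 + q ^ 2) *
          (α₁ * (a * (B * q - D * p)) + α₂ * (a * (B * p - A * q))) / 2) / R ^ 3 -
      k / R * (α₁ * (B * q - D * p) + α₂ * (B * p - A * q) - 2 * a * (A * D - B ^ 2))) ≤
    ρ * (mm * R - |u|) + ρ * η + 3 * (1 + ρ) * (|α₁| + |α₂|) * (|p| + |q| + |A| + |B| + |D|) := by
  have t0 := one_sub_sq hx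
  have mp := mm_pos
  have ml := mm_lt
  have ρ0 : 0 < ρ := by
    by_contra hc
    have : a * ρ ≤ 0 := mul_nonpos_of_nonneg_of_nonpos ha.le (not_lt.1 hc)
    rw [har] at this; linarith
  obtain ⟨g, hg⟩ : ∃ g, g = p ^ 2 + q ^ 2 := ⟨_, rfl⟩
  obtain ⟨W₁, hW₁⟩ : ∃ W₁, W₁ = a * (B * q - D * p) := ⟨_, rfl⟩
  obtain ⟨W₂, hW₂⟩ : ∃ W₂, W₂ = a * (B * p - A * q) := ⟨_, rfl⟩
  obtain ⟨N, hN⟩ : ∃ N, N = p * W₁ + q * W₂ := ⟨_, rfl⟩
  obtain ⟨M, hM⟩ : ∃ M, M = W₁ ^ 2 + W₂ ^ 2 := ⟨_, rfl⟩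
  obtain ⟨Δ, hΔ⟩ : ∃ Δ, Δ = A * D - B ^ 2 := ⟨_, rfl⟩
  have hN2 : u * N = M + a ^ 2 * (p ^ 2 + q ^ 2) * Δ := by
    rw [hN, hM, hΔ, hW₁, hW₂, he]; ring
  have T0 := alg_T0 (m := mm - |x|) hR t0 har hu hN2 hR2 r1 r2
  rw [← hW₁, ← hW₂, ← hN, ← hM, ← hΔ]
  -- bounds
  have M0 : 0 ≤ M := by rw [hM]; positivity
  have g0 : 0 ≤ g := by rw [hg]; positivity
  have g0' : 0 ≤ p ^ 2 + q ^ 2 := by positivity
  have G : a * g ≤ R ^ 2 := by rw [hR2, hg]; linarith [sq_nonneg u, sq_nonneg η]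
  have gR : g ≤ ρ * R ^ 2 := by
    calc g = ρ * (a * g) := by rw [← mul_assoc, mul_comm ρ a, har, one_mul]
      _ ≤ ρ * R ^ 2 := by gcongr
  have uR : u ^ 2 ≤ R ^ 2 := by rw [hR2]; linarith [sq_nonneg η, mul_nonneg ha.le g0']
  have ηR : η ≤ R := by
    refine (pow_le_pow_iff_left₀ hη.le hR.le two_ne_zero).1 ?_
    rw [hR2]; linarith [sq_nonneg u, mul_nonneg ha.le g0']
  have eR : ((1 + ρ) * R) ^ 2 = ρ * R ^ 2 + (1 + ρ + ρ ^ 2) * R ^ 2 := by ring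
  have eR0 : 0 ≤ (1 + ρ + ρ ^ 2) * R ^ 2 := by positivity
  have pR : |p| ≤ (1 + ρ) * R := by
    have h1 : p ^ 2 ≤ ρ * R ^ 2 := le_trans (by rw [hg]; linarith [sq_nonneg q]) gR
    refine abs_le_of_sq_le_sq ?_ (by positivity)
    refine h1.trans ?_
    rw [eR]; linarith
  have qR : |q| ≤ (1 + ρ) * R := by
    have h1 : q ^ 2 ≤ ρ * R ^ 2 := le_trans (by rw [hg]; linarith [sq_nonneg p]) gR
    refine abs_le_of_sq_le_sq ?_ (by positivity)
    refine h1.trans ?_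
    rw [eR]; linarith
  obtain ⟨n, hn⟩ : ∃ n, n = |p| + |q| + |A| + |B| + |D| := ⟨_, rfl⟩
  have p0 := abs_nonneg p
  have q0 := abs_nonneg q
  have A0 := abs_nonneg A
  have B0 := abs_nonneg B
  have D0 := abs_nonneg D
  have x1 : |x| ≤ 1 := (abs_lt.2 hx).le
  have n0 : 0 ≤ n := by rw [hn]; positivity
  have w1 : |B * q - D * p| ≤ (1 + ρ) * R * n := by
    calc |B * q - D * p| ≤ |B * q| + |D * p| := abs_sub _ _
      _ = |B| * |q| + |D| * |p| := by rw [abs_mul, abs_mul]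
      _ ≤ |B| * ((1 + ρ) * R) + |D| * ((1 + ρ) * R) := by gcongr
      _ = (1 + ρ) * R * (|B| + |D|) := by ring
      _ ≤ (1 + ρ) * R * n := by
        gcongr
        rw [hn]; linarith
  have w2 : |B * p - A * q| ≤ (1 + ρ) * R * n := by
    calc |B * p - A * q| ≤ |B * p| + |A * q| := abs_sub _ _
      _ = |B| * |p| + |A| * |q| := by rw [abs_mul, abs_mul]
      _ ≤ |B| * ((1 + ρ) * R) + |A| * ((1 + ρ) * R) := by gcongr
      _ = (1 + ρ) * R * (|B| + |A|) := by ring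
      _ ≤ (1 + ρ) * R * n := by
        gcongr
        rw [hn]; linarith
  obtain ⟨β, hβ⟩ : ∃ β, β = |α₁| + |α₂| := ⟨_, rfl⟩
  have β0 : 0 ≤ β := by rw [hβ]; positivity
  obtain ⟨w, hw⟩ : ∃ w, w = α₁ * (B * q - D * p) + α₂ * (B * p - A * q) := ⟨_, rfl⟩
  have wb : |w| ≤ (1 + ρ) * R * n * β := by
    rw [hw]
    calc |α₁ * (B * q - D * p) + α₂ * (B * p - A * q)| ≤
        |α₁ * (B * q - D * p)| + |α₂ * (B * p - A * q)| := abs_add_le _ _
      _ = |α₁| * |B * q - D * p| + |α₂| * |B * p - A * q| := by rw [abs_mul, abs_mul]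
      _ ≤ |α₁| * ((1 + ρ) * R * n) + |α₂| * ((1 + ρ) * R * n) := by gcongr
      _ = (1 + ρ) * R * n * β := by rw [hβ]; ring
  obtain ⟨s, hs⟩ : ∃ s, s = p * α₁ + q * α₂ := ⟨_, rfl⟩
  have sb : |s| ≤ n * β := by
    rw [hs]
    calc |p * α₁ + q * α₂| ≤ |p * α₁| + |q * α₂| := abs_add_le _ _
      _ = |p| * |α₁| + |q| * |α₂| := by rw [abs_mul, abs_mul]
      _ ≤ n * |α₁| + n * |α₂| := by
        have : |p| ≤ n := by rw [hn]; linarith
        have : |q| ≤ n := by rw [hn]; linarith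
        gcongr
      _ = n * β := by rw [hβ]; ring
  have hwW : α₁ * W₁ + α₂ * W₂ = a * w := by rw [hw, hW₁, hW₂]; ring
  rw [hwW, ← hg, ← hs, ← hw]
  rw [← hg] at T0
  rw [← hn, ← hβ]
  have split : (d * (g / R - u * (N + g * s / 2) / R ^ 3) - e * (ρ * u) -
      l * (N / R ^ 2 - u * (M + g * (a * w) / 2) / R ^ 4) +
      k * (M + g * (a * w) / 2) / R ^ 3 - k / R * (w - 2 * a * Δ)) =
      (d * (g / R - u * N / R ^ 3) - e * (ρ * u) - l * N / R ^ 2 +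
      l * u * M / R ^ 4 + k * M / R ^ 3 + 2 * a * k * Δ / R) +
      (-(d * x * (g / R ^ 2) * s / 2) + (l * x + k) * (a * g / R ^ 2) * (w / R) / 2 -
        k * (w / R)) := by
    rw [hu]
    field_simp
    ring
  have hw2 : α₁ * (B * q - D * p) + α₂ * (B * p - A * q) = w := hw.symm
  rw [split, T0]
  -- the error terms
  have E1 : -(d * x * (g / R ^ 2) * s / 2) ≤ ρ * (n * β) := by
    refine (neg_le_abs _).trans ?_
    rw [abs_div, abs_mul, abs_mul, abs_mul, abs_of_nonneg d0, abs_of_pos (by norm_num : (0:ℝ) < 2)]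
    have gg : |g / R ^ 2| ≤ ρ := by
      rw [abs_of_nonneg (by positivity), div_le_iff₀ (by positivity)]; exact gR
    have h1 : d * |x| ≤ 1 := mul_le_one₀ (by linarith) (abs_nonneg x) x1
    have h2 : d * |x| * |g / R ^ 2| ≤ 1 * ρ := mul_le_mul h1 gg (abs_nonneg _) zero_le_one
    have h3 : d * |x| * |g / R ^ 2| * |s| ≤ 1 * ρ * (n * β) :=
      mul_le_mul h2 sb (abs_nonneg _) (by positivity)
    have h4 : 0 ≤ ρ * (n * β) := by positivity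
    linarith
  have wR : |w / R| ≤ (1 + ρ) * (n * β) := by
    rw [abs_div, abs_of_pos hR, div_le_iff₀ hR]
    calc |w| ≤ (1 + ρ) * R * n * β := wb
      _ = (1 + ρ) * (n * β) * R := by ring
  have kk : k ≤ 1 := by
    have h1 : mm / 4 * (1 - x ^ 2) ≤ 1 * 1 :=
      mul_le_mul (by linarith) (by linarith [sq_nonneg x]) t0.le zero_le_one
    linarith
  have E2 : (l * x + k) * (a * g / R ^ 2) * (w / R) / 2 ≤ (1 + ρ) * (n * β) := by
    refine (le_abs_self _).trans ?_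
    rw [abs_div, abs_mul, abs_mul, abs_of_pos (by norm_num : (0:ℝ) < 2)]
    have h0 : |l * x + k| ≤ 2 := by
      refine (abs_add_le _ _).trans ?_
      rw [abs_mul, abs_of_nonneg k0]
      have h1 : |l| * |x| ≤ 1 := mul_le_one₀ l1 (abs_nonneg x) x1
      linarith
    have gg : |a * g / R ^ 2| ≤ 1 := by
      rw [abs_of_nonneg (by positivity), div_le_one (by positivity)]; exact G
    have h2 : |l * x + k| * |a * g / R ^ 2| ≤ 2 * 1 := mul_le_mul h0 gg (abs_nonneg _) zero_le_two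
    have h3 : |l * x + k| * |a * g / R ^ 2| * |w / R| ≤ 2 * 1 * ((1 + ρ) * (n * β)) :=
      mul_le_mul h2 wR (abs_nonneg _) (by positivity)
    linarith
  have E3 : - (k * (w / R)) ≤ (1 + ρ) * (n * β) := by
    refine (neg_le_abs _).trans ?_
    rw [abs_mul, abs_of_nonneg k0]
    calc k * |w / R| ≤ 1 * ((1 + ρ) * (n * β)) := mul_le_mul kk wR (abs_nonneg _) zero_le_one
      _ = (1 + ρ) * (n * β) := one_mul _
  -- the main terms
  have F1 : ρ * R * (mm - |x|) = ρ * (mm * R - |u|) := by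
    rw [hu, abs_mul, abs_of_pos hR]; ring
  have F2 : 0 ≤ ρ * η ^ 2 * d / R := by positivity
  have F3 : 0 ≤ M / R ^ 3 * (k + x ^ 2 * d) := by positivity
  have ΔB : Δ ≤ (A + D) ^ 2 / 4 := by
    have e : (A + D) ^ 2 / 4 - (A * D - B ^ 2) = (A - D) ^ 2 / 4 + B ^ 2 := by ring
    have e0 : 0 ≤ (A - D) ^ 2 / 4 + B ^ 2 := by positivity
    rw [hΔ]; linarith
  have F4 : 2 * a * k * η ^ 2 * Δ / (R ^ 3 * (1 - x ^ 2)) ≤ ρ * η := by
    rw [div_le_iff₀ (by positivity)]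
    have e1 : a * (A + D) ^ 2 = ρ * u ^ 2 := by
      have : ρ * u ^ 2 = (a * ρ) * a * (A + D) ^ 2 := by rw [he]; ring
      rw [this, har]; ring
    have h1 : 2 * a * k * η ^ 2 * Δ ≤ 2 * a * k * η ^ 2 * ((A + D) ^ 2 / 4) :=
      mul_le_mul_of_nonneg_left ΔB (by positivity)
    have h2 : 2 * a * k * η ^ 2 * ((A + D) ^ 2 / 4) = k * (η ^ 2 * (ρ * u ^ 2) / 2) := by
      rw [← e1]; ring
    have h3 : k * (η ^ 2 * (ρ * u ^ 2) / 2) ≤
        mm / 4 * (1 - x ^ 2) * (η ^ 2 * (ρ * u ^ 2) / 2) :=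
      mul_le_mul_of_nonneg_right k1 (by positivity)
    have h4 : η ^ 2 * (ρ * u ^ 2) ≤ η * R * (ρ * R ^ 2) := by
      have h7 : η ^ 2 ≤ η * R := by rw [sq]; exact mul_le_mul_of_nonneg_left ηR hη.le
      have h8 : ρ * u ^ 2 ≤ ρ * R ^ 2 := mul_le_mul_of_nonneg_left uR ρ0.le
      exact mul_le_mul h7 h8 (by positivity) (by positivity)
    have h5 : mm / 4 * (1 - x ^ 2) * (η ^ 2 * (ρ * u ^ 2) / 2) ≤
        mm / 4 * (1 - x ^ 2) * (η * R * (ρ * R ^ 2) / 2) :=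
      mul_le_mul_of_nonneg_left (by linarith) (by positivity)
    have h6 : mm / 4 * (1 - x ^ 2) * (η * R * (ρ * R ^ 2) / 2) =
        mm / 8 * (ρ * η * (R ^ 3 * (1 - x ^ 2))) := by ring
    have h7 : mm / 8 * (ρ * η * (R ^ 3 * (1 - x ^ 2))) ≤ 1 * (ρ * η * (R ^ 3 * (1 - x ^ 2))) :=
      mul_le_mul_of_nonneg_right (by linarith) (by positivity)
    linarith
  have fin : 3 * (1 + ρ) * β * n = ρ * (n * β) + (1 + ρ) * (n * β) + (1 + ρ) * (n * β) + n * β := by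
    ring
  have nb : 0 ≤ n * β := by positivity
  rw [F1, fin]
  linarith

end

end Pool.Agent.Helper61A.PW
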