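import Pool.Agent.Helper61A.PW.Calc

/-!
Project PW (helper61): the vector field.
-/

set_option autoImplicit false
open Filter Topology Complex
open scoped ContDiff

namespace Pool.Agent.Helper61A.PW

noncomputable section

/-- `√(u² + a(p² + q²) + η²)` -/
def Rf (η : ℝ) (u p q a : ℂ → ℝ) (w : ℂ) : ℝ := √(u w ^ 2 + a w * (p w ^ 2 + q w ^ 2) + η ^ 2)

/-- `u / R` -/
def Xi (η : ℝ) (u p q a : ℂ → ℝ) (w : ℂ) : ℝ := u w * (Rf η u p q a w)⁻¹

/-- the component in the direction `p`, with `W` the component of the correction -/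
def Vf (η : ℝ) (u p q a r W : ℂ → ℝ) (w : ℂ) : ℝ :=
  et (Xi η u p q a w) * r w - ka (Xi η u p q a w) * (Rf η u p q a w)⁻¹ * (a w * W w)

lemma Rf_sq {η : ℝ} {u p q a : ℂ → ℝ} {w : ℂ} (ha : 0 < a w) :
    Rf η u p q a w ^ 2 = u w ^ 2 + a w * (p w ^ 2 + q w ^ 2) + η ^ 2 := by
  unfold Rf
  exact Real.sq_sqrt (by positivity)

lemma Rf_pos {η : ℝ} (hη : 0 < η) {u p q a : ℂ → ℝ} {w : ℂ} (ha : 0 < a w) :
    0 < Rf η u p q a w := by
  unfold Rf
  exact Real.sqrt_pos.2 (by positivity)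

lemma Xi_mem {η : ℝ} (hη : 0 < η) {u p q a : ℂ → ℝ} {w : ℂ} (ha : 0 < a w) :
    Xi η u p q a w ∈ Set.Ioo (-1 : ℝ) 1 := by
  have h1 := Rf_sq (η := η) (u := u) (p := p) (q := q) ha
  have h2 := Rf_pos hη (u := u) (p := p) (q := q) ha
  unfold Xi
  have h3 : |u w| < Rf η u p q a w := by
    refine abs_lt_of_sq_lt_sq ?_ h2.le
    rw [h1]
    have : 0 ≤ a w * (p w ^ 2 + q w ^ 2) := by positivity
    have : 0 < η ^ 2 := by positivity
    linarith
  have h4 : |u w * (Rf η u p q a w)⁻¹| < 1 := by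
    rw [← div_eq_mul_inv, abs_div, abs_of_pos h2, div_lt_one h2]; exact h3
  exact abs_lt.1 h4

theorem field_HD {h η : ℝ} (hη : 0 < η) {u p q A B D a : ℂ → ℝ} {z : ℂ}
    {c₀ c₁ c₂ c₃ α₁ α₂ ρ : ℝ} (hu : HD h u z (p z) (q z)) (hp : HD h p z (A z) (B z))
    (hq : HD h q z (B z) (D z)) (hA : HD h A z c₀ c₂) (hB : HD h B z c₂ c₁)
    (hD : HD h D z c₁ c₃) (ha : HD h a z α₁ α₂) (a0 : 0 < a z) (har : a z * ρ = 1)
    (he : A z + D z = -(ρ * u z)) :
    ∃ v₁₁ v₁₂ v₂₁ v₂₂ : ℝ,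
      HD h (Vf η u p q a p (fun w => B w * q w - D w * p w)) z v₁₁ v₁₂ ∧
      HD h (Vf η u p q a q (fun w => B w * p w - A w * q w)) z v₂₁ v₂₂ ∧
      v₁₁ + v₂₂ ≤ ρ * (mm * Rf η u p q a z - |u z|) + ρ * η + 3 * (1 + ρ) * (|α₁| + |α₂|) *
        (|p z| + |q z| + |A z| + |B z| + |D z|) := by
  have R2 := Rf_sq (η := η) (u := u) (p := p) (q := q) a0
  have R0 := Rf_pos hη (u := u) (p := p) (q := q) a0
  have X0 := Xi_mem hη (u := u) (p := p) (q := q) a0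
  -- the derivative of `R`
  have hP0 := ((hu.mul hu).add (ha.mul ((hp.mul hp).add (hq.mul hq)))).add (HD.cst (h := h) (η ^ 2))
  have eP : (fun w => u w * u w + a w * (p w * p w + q w * q w) + η ^ 2) =
      fun w => u w ^ 2 + a w * (p w ^ 2 + q w ^ 2) + η ^ 2 := by
    funext w; ring
  rw [eP] at hP0
  have Pne : u z ^ 2 + a z * (p z ^ 2 + q z ^ 2) + η ^ 2 ≠ 0 := by
    rw [← R2]; positivity
  have hR := hP0.comp (Real.hasDerivAt_sqrt Pne)
  have hRe : √(u z ^ 2 + a z * (p z ^ 2 + q z ^ 2) + η ^ 2) = Rf η u p q a z := rfl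
  rw [hRe] at hR
  change HD h (Rf η u p q a) z _ _ at hR
  have hu' : u z = -(a z * (A z + D z)) := by
    rw [he]
    calc u z = (a z * ρ) * u z := by rw [har, one_mul]
      _ = _ := by ring
  obtain ⟨r₁, hr₁⟩ : ∃ r₁, r₁ = (a z * (B z * q z - D z * p z) +
      α₁ * (p z ^ 2 + q z ^ 2) / 2) / Rf η u p q a z := ⟨_, rfl⟩
  obtain ⟨r₂, hr₂⟩ : ∃ r₂, r₂ = (a z * (B z * p z - A z * q z) +
      α₂ * (p z ^ 2 + q z ^ 2) / 2) / Rf η u p q a z := ⟨_, rfl⟩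
  have hR' : HD h (Rf η u p q a) z r₁ r₂ := by
    convert hR using 1
    · rw [hr₁]
      field_simp
      rw [hu']; ring
    · rw [hr₂]
      field_simp
      rw [hu']; ring
  have hRi := hR'.comp (hasDerivAt_inv R0.ne')
  have hX := hu.mul hRi
  change HD h (Xi η u p q a) z _ _ at hX
  have hX1 := hX.comp (et_d X0)
  have hX2 := hX.comp (ka_d X0)
  have hW1 := ha.mul ((hB.mul hq).sub (hD.mul hp))
  have hW2 := ha.mul ((hB.mul hp).sub (hA.mul hq))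
  have hV1 := (hX1.mul hp).sub ((hX2.mul hRi).mul hW1)
  have hV2 := (hX1.mul hq).sub ((hX2.mul hRi).mul hW2)
  refine ⟨_, _, _, _, hV1, hV2, ?_⟩
  obtain ⟨e0, e1⟩ := ed_bd X0
  obtain ⟨k0, k1⟩ := ka_bd X0
  have Xe : u z = Xi η u p q a z * Rf η u p q a z := by
    unfold Xi; field_simp
  have main := alg_main (B := B z) (α₁ := α₁) (α₂ := α₂) a0 hη R0 X0 har Xe hu' R2 (R1 X0)
    (Pool.Agent.Helper61A.PW.R2 X0) e0 e1 k0 k1 (kd_bd X0)
  refine le_trans (le_of_eq ?_) main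
  clear main e0 e1 k0 k1 hV1 hV2 hW1 hW2 hX1 hX2 hX hRi hR' hR hP0 hA hB hD hp hq hu ha hRe Pne
    R2 Xe
  generalize ed (Xi η u p q a z) = d
  generalize et (Xi η u p q a z) = e
  generalize kd (Xi η u p q a z) = l
  generalize ka (Xi η u p q a z) = k
  generalize Rf η u p q a z = R at *
  rw [hr₁, hr₂]
  have he' : ρ * u z = -(A z + D z) := by rw [he]; ring
  rw [he']
  field_simp
  ring

end

end Pool.Agent.Helper61A.PW
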