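import Pool.Agent.Helper61A.PW.Step

/-!
Project PW (helper61): the inequality for a single function.
-/

set_option autoImplicit false
open MeasureTheory Filter Topology Complex
open scoped ContDiff ENNReal

namespace Pool.Agent.Helper61A.PW

open Pool.Agent.W745.RW Pool.Agent.TH294.RS Pool.Agent.TH294.RG Pool.Agent.TH421.DF
  Pool.Agent.TH421.AC

noncomputable section

variable {Ω : Set ℂ}

/-- `√(u² + a |∇u|²)` -/
def Pf (h : ℝ) (ρ u : ℂ → ℝ) (z : ℂ) : ℝ :=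
  √(u z ^ 2 + (ρ z)⁻¹ * (pd h 1 u z ^ 2 + pd h I u z ^ 2))

lemma Rf_le {η : ℝ} (hη : 0 < η) {u p q a : ℂ → ℝ} {z : ℂ} (ha : 0 < a z) :
    Rf η u p q a z ≤ √(u z ^ 2 + a z * (p z ^ 2 + q z ^ 2)) + η := by
  unfold Rf
  have P0 : 0 ≤ u z ^ 2 + a z * (p z ^ 2 + q z ^ 2) := by positivity
  refine Real.sqrt_le_iff.2 ⟨by positivity, ?_⟩
  have h1 := Real.sq_sqrt P0
  have h2 : 0 ≤ √(u z ^ 2 + a z * (p z ^ 2 + q z ^ 2)) * η := by positivity
  calc u z ^ 2 + a z * (p z ^ 2 + q z ^ 2) + η ^ 2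
      = √(u z ^ 2 + a z * (p z ^ 2 + q z ^ 2)) ^ 2 + η ^ 2 := by rw [h1]
    _ ≤ (√(u z ^ 2 + a z * (p z ^ 2 + q z ^ 2)) + η) ^ 2 := by
      rw [add_sq]; linarith

lemma Pf_c (hΩ : IsOpen Ω) {ρ : ℂ → ℝ} (hρ : ContDiffOn ℝ ∞ ρ Ω) (hρ0 : ∀ z ∈ Ω, 0 < ρ z)
    {u : ℂ → ℝ} (hu : ContDiffOn ℝ ∞ u Ω) (h : ℝ) : ContinuousOn (Pf h ρ u) Ω := by
  have ci : ContinuousOn (fun z => (ρ z)⁻¹) Ω := hρ.continuousOn.inv₀ fun z hz => (hρ0 z hz).ne'
  exact ((hu.continuousOn.pow 2).add (ci.mul (((pd_sm hΩ hu h 1).continuousOn.pow 2).add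
    ((pd_sm hΩ hu h I).continuousOn.pow 2)))).sqrt

theorem step2 (hΩ : IsOpen Ω) {ρ : ℂ → ℝ} (hρ : ContDiffOn ℝ ∞ ρ Ω) (hρ0 : ∀ z ∈ Ω, 0 < ρ z)
    {φ : ℂ → ℝ} (hφ : TF Ω φ) (hφ0 : ∀ z, 0 ≤ φ z) :
    ∃ C : ℝ, 0 ≤ C ∧ ∀ (h : ℝ) (u : ℂ → ℝ), 0 < h → ContDiffOn ℝ ∞ u Ω →
      (∀ z ∈ Ω, pd h 1 (pd h 1 u) z + pd h I (pd h I u) z = -(ρ z * u z)) →
      ∫ z, φ z * (ρ z * |u z|) ≤ mm * (∫ z, φ z * (ρ z * Pf h ρ u z)) +
        h * (C * ∫ z in tsupport φ, NN h u z) := by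
  obtain ⟨C, C0, hC⟩ := step1 hΩ hρ hρ0 hφ hφ0
  refine ⟨C, C0, fun h u hh hu he => ?_⟩
  have hSc : IsCompact (tsupport φ) := hφ.2.1
  have hSB : tsupport φ ⊆ Ω := hφ.2.2
  have z0 : ∀ z, z ∉ tsupport φ → φ z = 0 := fun z hz => image_eq_zero_of_notMem_tsupport hz
  have cφ : Continuous φ := hφ.1.continuous
  have cρ : ContinuousOn ρ (tsupport φ) := hρ.continuousOn.mono hSB
  have k3 : Integrable (fun z => φ z * ρ z) :=
    rint hSc (cφ.continuousOn.mul cρ) fun z hz => by rw [z0 z hz, zero_mul]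
  have k2 : Integrable (fun z => φ z * (ρ z * Pf h ρ u z)) :=
    rint hSc (cφ.continuousOn.mul (cρ.mul ((Pf_c hΩ hρ hρ0 hu h).mono hSB)))
      fun z hz => by rw [z0 z hz, zero_mul]
  have ks : ∀ η : ℝ, 0 < η → ∫ z, φ z * (ρ z * |u z|) ≤
      mm * (∫ z, φ z * (ρ z * Pf h ρ u z)) + h * (C * ∫ z in tsupport φ, NN h u z) +
        η * (2 * ∫ z, φ z * ρ z) := by
    intro η hη
    have h1 := hC h u hh hu he η hη
    have sa : ContDiffOn ℝ ∞ (fun z => (ρ z)⁻¹) Ω := hρ.inv fun z hz => (hρ0 z hz).ne'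
    have one : ∀ {f : ℂ → ℝ}, ContDiffOn ℝ ∞ f Ω → ContDiffOn ℝ 1 f Ω := fun hf =>
      hf.of_le (by exact_mod_cast le_top)
    have sR : ContDiffOn ℝ 1 (Rf η u (pd h 1 u) (pd h I u) (fun z => (ρ z)⁻¹)) Ω :=
      Rf_cd hη (one hu) (one (pd_sm hΩ hu h 1)) (one (pd_sm hΩ hu h I)) (one sa)
        fun z hz => inv_pos.2 (hρ0 z hz)
    have k4 : Integrable (fun z => φ z * (ρ z * Rf η u (pd h 1 u) (pd h I u)
        (fun z => (ρ z)⁻¹) z)) :=
      rint hSc (cφ.continuousOn.mul (cρ.mul (sR.continuousOn.mono hSB)))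
        fun z hz => by rw [z0 z hz, zero_mul]
    have h2 : ∫ z, φ z * (ρ z * Rf η u (pd h 1 u) (pd h I u) (fun z => (ρ z)⁻¹) z) ≤
        ∫ z, (φ z * (ρ z * Pf h ρ u z) + η * (φ z * ρ z)) := by
      refine integral_mono k4 (k2.add (k3.const_mul η)) fun z => ?_
      show φ z * (ρ z * Rf η u (pd h 1 u) (pd h I u) (fun z => (ρ z)⁻¹) z) ≤
        φ z * (ρ z * Pf h ρ u z) + η * (φ z * ρ z)
      by_cases hz : z ∈ tsupport φ
      · have ρz := hρ0 z (hSB hz)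
        have h3 : Rf η u (pd h 1 u) (pd h I u) (fun z => (ρ z)⁻¹) z ≤ Pf h ρ u z + η :=
          Rf_le hη (a := fun z => (ρ z)⁻¹) (inv_pos.2 ρz)
        have h4 := mul_le_mul_of_nonneg_left (mul_le_mul_of_nonneg_left h3 ρz.le) (hφ0 z)
        linarith
      · rw [z0 z hz]; simp
    rw [integral_add k2 (k3.const_mul η), integral_const_mul] at h2
    have h5 : 0 ≤ ∫ z, φ z * ρ z := by
      refine integral_nonneg fun z => ?_
      show 0 ≤ φ z * ρ z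
      by_cases hz : z ∈ tsupport φ
      · exact mul_nonneg (hφ0 z) (hρ0 z (hSB hz)).le
      · rw [z0 z hz, zero_mul]
    have h6 := mul_le_mul_of_nonneg_left h2 mm_pos.le
    have h7 : mm * (η * ∫ z, φ z * ρ z) ≤ 1 * (η * ∫ z, φ z * ρ z) :=
      mul_le_mul_of_nonneg_right (by linarith [mm_lt]) (by positivity)
    linarith
  refine le_of_forall_pos_le_add fun ε hε => ?_
  obtain ⟨J, hJ⟩ : ∃ J, J = ∫ z, φ z * ρ z := ⟨_, rfl⟩
  have J0 : 0 ≤ J := by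
    rw [hJ]
    refine integral_nonneg fun z => ?_
    show 0 ≤ φ z * ρ z
    by_cases hz : z ∈ tsupport φ
    · exact mul_nonneg (hφ0 z) (hρ0 z (hSB hz)).le
    · rw [z0 z hz, zero_mul]
  have h1 := ks (ε / (2 * J + 1)) (by positivity)
  rw [← hJ] at h1
  have h2 : ε / (2 * J + 1) * (2 * J) ≤ ε := by
    rw [div_mul_eq_mul_div, div_le_iff₀ (by positivity)]
    have : ε * (2 * J) + ε = ε * (2 * J + 1) := by ring
    linarith
  linarith

/-- the energy -/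
theorem step3 (hΩ : IsOpen Ω) {ρ : ℂ → ℝ} (hρ : ContDiffOn ℝ ∞ ρ Ω)
    {φ : ℂ → ℝ} (hφ : TF Ω φ) :
    ∃ C : ℝ, 0 ≤ C ∧ ∀ (h : ℝ) (u : ℂ → ℝ), 0 < h → ContDiffOn ℝ ∞ u Ω →
      (∀ z ∈ Ω, pd h 1 (pd h 1 u) z + pd h I (pd h I u) z = -(ρ z * u z)) →
      ∫ z, φ z * (pd h 1 u z ^ 2 + pd h I u z ^ 2) ≤ (∫ z, φ z * (ρ z * u z ^ 2)) +
        h * (C * ∫ z in tsupport φ, (u z ^ 2 + pd h 1 u z ^ 2 + pd h I u z ^ 2)) := by
  obtain ⟨S, hS⟩ : ∃ S : Set ℂ, S = tsupport φ := ⟨_, rfl⟩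
  have hSc : IsCompact S := by rw [hS]; exact hφ.2.1
  have hSB : S ⊆ Ω := by rw [hS]; exact hφ.2.2
  have z0 : ∀ z, z ∉ S → φ z = 0 := fun z hz => image_eq_zero_of_notMem_tsupport (by rwa [hS] at hz)
  have z1 : ∀ v, ∀ z, z ∉ S → fderiv ℝ φ z v = 0 := fun v z hz => by
    rw [fderiv_of_notMem_tsupport ℝ (by rwa [hS] at hz)]; rfl
  rw [← hS]
  have cφ : Continuous φ := hφ.1.continuous
  have cφ' : ∀ v, Continuous (fun z => fderiv ℝ φ z v) := fun v =>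
    ((hφ.1.fderiv_right (m := ∞) le_rfl).clm_apply contDiff_const).continuous
  have cG : ContinuousOn (fun z => |fderiv ℝ φ z 1| + |fderiv ℝ φ z I|) S :=
    ((cφ' 1).abs.add (cφ' I).abs).continuousOn
  obtain ⟨C, hC⟩ := hSc.exists_bound_of_continuousOn cG
  refine ⟨|C|, abs_nonneg C, fun h u hh hu he => ?_⟩
  obtain ⟨p, hp⟩ : ∃ p, p = pd h 1 u := ⟨_, rfl⟩
  obtain ⟨q, hq⟩ : ∃ q, q = pd h I u := ⟨_, rfl⟩
  have sp : ContDiffOn ℝ ∞ p Ω := by rw [hp]; exact pd_sm hΩ hu h 1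
  have sq : ContDiffOn ℝ ∞ q Ω := by rw [hq]; exact pd_sm hΩ hu h I
  have one : ∀ {f : ℂ → ℝ}, ContDiffOn ℝ ∞ f Ω → ContDiffOn ℝ 1 f Ω := fun hf =>
    hf.of_le (by exact_mod_cast le_top)
  obtain ⟨i1, j1⟩ := div_zero' hΩ hφ (one (hu.mul sp)) 1
  obtain ⟨i2, j2⟩ := div_zero' hΩ hφ (one (hu.mul sq)) I
  rw [← hp, ← hq]
  have cE : ContinuousOn (fun z => u z ^ 2 + p z ^ 2 + q z ^ 2) S :=
    (((hu.continuousOn.pow 2).add (sp.continuousOn.pow 2)).add (sq.continuousOn.pow 2)).mono hSB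
  have k4 : Integrable (S.indicator (fun z => u z ^ 2 + p z ^ 2 + q z ^ 2)) :=
    (cE.integrableOn_compact hSc).integrable_indicator hSc.measurableSet
  have pt : ∀ z, φ z * (p z ^ 2 + q z ^ 2) ≤ φ z * (ρ z * u z ^ 2) +
      h * ((φ z * fderiv ℝ (fun z => u z * p z) z 1 + (u z * p z) * fderiv ℝ φ z 1) +
        (φ z * fderiv ℝ (fun z => u z * q z) z I + (u z * q z) * fderiv ℝ φ z I)) +
      h * (|C| * S.indicator (fun z => u z ^ 2 + p z ^ 2 + q z ^ 2) z) := by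
    intro z
    by_cases hzS : z ∈ S
    · have hz := hSB hzS
      rw [Set.indicator_of_mem hzS]
      have e1 : HD h u z (p z) (q z) := by rw [hp, hq]; exact pd_HD hΩ hu h hz
      have e2 := pd_HD hΩ sp h hz
      have e3 := pd_HD hΩ sq h hz
      have f1 := (e1.mul e2).fd.2.1
      have f2 := (e1.mul e3).fd.2.2
      have e8 : pd h 1 p z + pd h I q z = -(ρ z * u z) := by
        rw [hp, hq]; exact he z hz
      have hb : |fderiv ℝ φ z 1| + |fderiv ℝ φ z I| ≤ |C| :=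
        (le_abs_self _).trans ((hC z hzS).trans (le_abs_self C))
      have key : h * ((φ z * fderiv ℝ (fun z => u z * p z) z 1 + (u z * p z) * fderiv ℝ φ z 1) +
        (φ z * fderiv ℝ (fun z => u z * q z) z I + (u z * q z) * fderiv ℝ φ z I)) =
        φ z * (p z ^ 2 + q z ^ 2) - φ z * (ρ z * u z ^ 2) +
        h * ((u z * p z) * fderiv ℝ φ z 1 + (u z * q z) * fderiv ℝ φ z I) := by
        linear_combination (φ z) * f1 + (φ z) * f2 + (φ z * u z) * e8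
      have m1 : -(u z * p z * fderiv ℝ φ z 1) ≤
          (u z ^ 2 + p z ^ 2 + q z ^ 2) * |fderiv ℝ φ z 1| := by
        refine (neg_le_abs _).trans ?_
        rw [abs_mul]
        refine mul_le_mul_of_nonneg_right ?_ (abs_nonneg _)
        rw [abs_le]
        constructor <;> nlinarith [sq_nonneg (u z + p z), sq_nonneg (u z - p z), sq_nonneg (q z)]
      have m2 : -(u z * q z * fderiv ℝ φ z I) ≤
          (u z ^ 2 + p z ^ 2 + q z ^ 2) * |fderiv ℝ φ z I| := by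
        refine (neg_le_abs _).trans ?_
        rw [abs_mul]
        refine mul_le_mul_of_nonneg_right ?_ (abs_nonneg _)
        rw [abs_le]
        constructor <;> nlinarith [sq_nonneg (u z + q z), sq_nonneg (u z - q z), sq_nonneg (p z)]
      have m3 : (u z ^ 2 + p z ^ 2 + q z ^ 2) * (|fderiv ℝ φ z 1| + |fderiv ℝ φ z I|) ≤
          (u z ^ 2 + p z ^ 2 + q z ^ 2) * |C| :=
        mul_le_mul_of_nonneg_left hb (by positivity)
      have m4 := mul_le_mul_of_nonneg_left (add_le_add m1 m2) hh.le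
      have m5 := mul_le_mul_of_nonneg_left m3 hh.le
      rw [key]
      linarith
    · rw [z0 z hzS, z1 1 z hzS, z1 I z hzS, Set.indicator_of_notMem hzS]
      simp
  have k1 : Integrable (fun z => φ z * (p z ^ 2 + q z ^ 2)) :=
    rint hSc (cφ.continuousOn.mul (((sp.continuousOn.pow 2).add (sq.continuousOn.pow 2)).mono hSB))
      fun z hz => by rw [z0 z hz, zero_mul]
  have k2 : Integrable (fun z => φ z * (ρ z * u z ^ 2)) :=
    rint hSc (cφ.continuousOn.mul ((hρ.continuousOn.mul (hu.continuousOn.pow 2)).mono hSB))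
      fun z hz => by rw [z0 z hz, zero_mul]
  have l3 : Integrable (fun z => h * ((φ z * fderiv ℝ (fun z => u z * p z) z 1 +
      (u z * p z) * fderiv ℝ φ z 1) + (φ z * fderiv ℝ (fun z => u z * q z) z I +
      (u z * q z) * fderiv ℝ φ z I))) := (i1.add i2).const_mul _
  have l4 : Integrable (fun z => h * (|C| *
      S.indicator (fun z => u z ^ 2 + p z ^ 2 + q z ^ 2) z)) := (k4.const_mul _).const_mul _
  have l23 : Integrable (fun z => φ z * (ρ z * u z ^ 2) +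
      h * ((φ z * fderiv ℝ (fun z => u z * p z) z 1 + (u z * p z) * fderiv ℝ φ z 1) +
        (φ z * fderiv ℝ (fun z => u z * q z) z I + (u z * q z) * fderiv ℝ φ z I))) := k2.add l3
  have tot := integral_mono k1 (l23.add l4) pt
  have ev : ∫ z, (φ z * (ρ z * u z ^ 2) +
      h * ((φ z * fderiv ℝ (fun z => u z * p z) z 1 + (u z * p z) * fderiv ℝ φ z 1) +
        (φ z * fderiv ℝ (fun z => u z * q z) z I + (u z * q z) * fderiv ℝ φ z I)) +
      h * (|C| * S.indicator (fun z => u z ^ 2 + p z ^ 2 + q z ^ 2) z)) =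
      (∫ z, φ z * (ρ z * u z ^ 2)) +
      h * (|C| * ∫ z in S, (u z ^ 2 + p z ^ 2 + q z ^ 2)) := by
    rw [integral_add l23 l4, integral_add k2 l3, integral_const_mul, integral_const_mul,
      integral_const_mul, integral_add i1 i2, j1, j2, integral_indicator hSc.measurableSet]
    ring
  exact tot.trans (le_of_eq ev)

end

end Pool.Agent.Helper61A.PW
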