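import Pool.Agent.Helper61A.PW.Loc
import Pool.Agent.N252.TV.L

/-!
Project PW (helper61): the inequality on open subsets of a surface.
-/

set_option autoImplicit false
open MeasureTheory Filter Topology Complex
open scoped ContDiff ENNReal

namespace Pool.Agent.Helper61A.PW

open Pool.Agent.W745.RW Pool.Agent.TH294.RS Pool.Agent.TH294.RG Pool.Agent.TH421.DF
  Pool.Agent.TH421.AC Pool.Agent.N252.TV

noncomputable section

/-- the local inequality for sequences of eigenfunctions -/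
theorem loc_seq {Ω : Set ℂ} {ρ : ℂ → ℝ} (hΩ : IsOpen Ω) (hρ : ContDiffOn ℝ ∞ ρ Ω)
    (hρ0 : ∀ z ∈ Ω, 0 < ρ z) {lam : ℕ → ℝ} (hlam : Tendsto lam atTop atTop) {u : ℕ → ℂ → ℝ}
    (hu : ∀ n, ContDiffOn ℝ ∞ (u n) Ω)
    (he : ∀ n, ∀ z ∈ Ω, lapl (u n) z + lam n * (ρ z * u n z) = 0) (hL : LocL2 Ω u)
    {φ : ℂ → ℝ} (hφ : TF Ω φ) (hφ0 : ∀ z, 0 ≤ φ z) :
    ∀ ε : ℝ, 0 < ε → ∀ᶠ n in atTop, ∫ z, φ z * (ρ z * |u n z|) ≤
      mm * √2 * (√(∫ z, φ z * ρ z) * √(∫ z, φ z * (ρ z * u n z ^ 2))) + ε := by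
  intro ε hε
  obtain ⟨N0, hN0⟩ := (eventually_atTop.1 (hlam.eventually_ge_atTop 1))
  obtain ⟨l, hl⟩ : ∃ l : ℕ → ℝ, ∀ n, l n = lam (n + N0) := ⟨_, fun _ => rfl⟩
  have l1 : ∀ n, 1 ≤ l n := fun n => by rw [hl]; exact hN0 _ (Nat.le_add_left _ _)
  have ll : Tendsto l atTop atTop :=
    (hlam.comp (tendsto_add_atTop_nat N0)).congr fun n => (hl n).symm
  obtain ⟨h, hh⟩ : ∃ h : ℕ → ℝ, ∀ n, h n = (√(l n))⁻¹ := ⟨_, fun _ => rfl⟩
  have hp : ∀ n, 0 < h n := fun n => by
    rw [hh]; exact inv_pos.2 (Real.sqrt_pos.2 (lt_of_lt_of_le one_pos (l1 n)))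
  have h0 : Tendsto h atTop (𝓝 0) :=
    (tendsto_inv_atTop_zero.comp (Real.tendsto_sqrt_atTop.comp ll)).congr fun n => (hh n).symm
  have h2 : ∀ n, h n ^ 2 * l n = 1 := fun n => by
    have p : 0 < l n := lt_of_lt_of_le one_pos (l1 n)
    rw [hh, inv_pow, Real.sq_sqrt p.le, inv_mul_cancel₀ p.ne']
  obtain ⟨w, hw⟩ : ∃ w : ℕ → ℂ → ℝ, w = fun n => u (n + N0) := ⟨_, rfl⟩
  have sw : ∀ n, ContDiffOn ℝ ∞ (w n) Ω := fun n => by rw [hw]; exact hu _
  have ew : ∀ n, ∀ z ∈ Ω, h n ^ 2 * lapl (w n) z = -(ρ z * w n z) := by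
    intro n z hz
    have e1 := he (n + N0) z hz
    rw [← hl] at e1
    have e2 : lapl (w n) z = - (l n * (ρ z * w n z)) := by
      rw [hw]; show lapl (u (n + N0)) z = - (l n * (ρ z * u (n + N0) z)); linarith
    rw [e2]
    have := h2 n
    linear_combination (-(ρ z * w n z)) * this
  have lbw : LB Ω 2 (cx w) := by
    refine ⟨fun n => Complex.ofRealCLM.contDiff.comp_contDiffOn (sw n), fun K hK hKB => ?_⟩
    obtain ⟨C, hC⟩ := hL K hK hKB
    refine ⟨C, ?_⟩
    have h3 := (tendsto_add_atTop_nat N0).eventually hC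
    refine h3.mono fun n hn => ?_
    simp only [cx, Complex.norm_real, Real.norm_eq_abs, sq_abs, hw]
    exact hn
  have MKw : MK2 Ω h 3 (cx w) := by
    refine mk_sol hΩ hp h0 lbw (ρ := fun z => (ρ z : ℂ))
      (Complex.ofRealCLM.contDiff.comp_contDiffOn hρ) (c := fun _ => 1) (M := 1)
      (Eventually.of_forall fun n => by norm_num) ?_ 3
    intro n z hz
    have e1 : lap (cx w n) z = ((lapl (w n) z : ℝ) : ℂ) := lap_re hΩ (sw n) hz
    simp only [Pool.Agent.TH294.RS.hL]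
    rw [e1]
    have e2 := ew n z hz
    have e3 : ((h n ^ 2 * lapl (w n) z : ℝ) : ℂ) = ((-(ρ z * w n z) : ℝ) : ℂ) := by rw [e2]
    push_cast at e3
    simp only [cx]
    push_cast
    rw [e3]; ring
  have key := loc hΩ hp h0 sw MKw hρ hρ0 (fun n z hz => by
    rw [rdd' hΩ sw 1 1 n hz, rdd' hΩ sw I I n hz, ← mul_add]
    exact ew n z hz) hφ hφ0 ε hε
  rw [← Filter.map_add_atTop_eq_nat N0, eventually_map]
  rw [hw] at key
  exact key

variable {X : Type*} [TopologicalSpace X] [MeasurableSpace X] [BorelSpace X] {vol : Measure X}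

/-- a test function in a chart, as a function on the surface -/
def Wc (C : IsoChart X vol) (χ : ℂ → ℝ) (x : X) : ℝ := C.c.source.indicator (fun x => χ (C.c x)) x

lemma Wc_meas (C : IsoChart X vol) {χ : ℂ → ℝ} (hχ : Continuous χ) : Measurable (Wc C χ) := by
  classical
  have h1 : ContinuousOn (fun x => χ (C.c x)) C.c.source := hχ.comp_continuousOn C.c.continuousOn
  have h2 := h1.measurable_piecewise (g := fun _ => (0 : ℝ)) continuousOn_const
    C.c.open_source.measurableSet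
  have e : Wc C χ = C.c.source.piecewise (fun x => χ (C.c x)) (fun _ => (0 : ℝ)) := by
    funext x
    unfold Wc
    by_cases hx : x ∈ C.c.source
    · rw [Set.indicator_of_mem hx, Set.piecewise_eq_of_mem _ _ _ hx]
    · rw [Set.indicator_of_notMem hx, Set.piecewise_eq_of_notMem _ _ _ hx]
  rw [e]; exact h2

lemma trans (C : IsoChart X vol) {χ : ℂ → ℝ} (hχ : TF C.c.target χ) {F : X → ℝ}
    (hF : Measurable F) :
    ∫ x, Wc C χ x * F x ∂vol = ∫ z, χ z * (C.ρ z * F (C.c.symm z)) := by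
  have e1 : (fun x => Wc C χ x * F x) = C.c.source.indicator (fun x => Wc C χ x * F x) := by
    funext x
    by_cases hx : x ∈ C.c.source
    · rw [Set.indicator_of_mem hx]
    · rw [Set.indicator_of_notMem hx]
      unfold Wc
      rw [Set.indicator_of_notMem hx, zero_mul]
  have hm : Measurable (fun x => Wc C χ x * F x) := (Wc_meas C hχ.1.continuous).mul hF
  rw [e1, integral_indicator C.c.open_source.measurableSet,
    C.int hm.aestronglyMeasurable, C.intm,
    ← integral_indicator C.c.open_target.measurableSet]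
  congr 1
  funext z
  by_cases hz : z ∈ C.c.target
  · rw [Set.indicator_of_mem hz]
    unfold Wc
    rw [Set.indicator_of_mem (C.c.map_target hz), C.c.right_inv hz]
    ring
  · rw [Set.indicator_of_notMem hz, image_eq_zero_of_notMem_tsupport fun h => hz (hχ.2.2 h)]
    ring

omit [TopologicalSpace X] [BorelSpace X] in
/-- admissible weights -/
structure Adm (vol : Measure X) (u : ℕ → X → ℝ) (w : X → ℝ) : Prop where
  meas : Measurable w
  nn : ∀ x, 0 ≤ w x
  le : ∀ x, w x ≤ 1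
  bd : ∀ ε : ℝ, 0 < ε → ∀ᶠ n in atTop, ∫ x, w x * |u n x| ∂vol ≤
    mm * √2 * (√(∫ x, w x ∂vol) * √(∫ x, w x * u n x ^ 2 ∂vol)) + ε

lemma cs_num {a b c d : ℝ} (ha : 0 ≤ a) (hb : 0 ≤ b) (hc : 0 ≤ c) (hd : 0 ≤ d) :
    √a * √b + √c * √d ≤ √(a + c) * √(b + d) := by
  rw [← Real.sqrt_mul (by positivity : 0 ≤ a + c)]
  refine Real.le_sqrt_of_sq_le ?_
  have h1 := Real.sq_sqrt ha
  have h2 := Real.sq_sqrt hb
  have h3 := Real.sq_sqrt hc
  have h4 := Real.sq_sqrt hd
  calc (√a * √b + √c * √d) ^ 2 ≤ (√a ^ 2 + √c ^ 2) * (√b ^ 2 + √d ^ 2) := by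
        nlinarith [sq_nonneg (√a * √d - √c * √b)]
    _ = (a + c) * (b + d) := by rw [h1, h2, h3, h4]

omit [TopologicalSpace X] [BorelSpace X] in
lemma int_w [IsFiniteMeasure vol] {w : X → ℝ} (hw : Measurable w) (h0 : ∀ x, 0 ≤ w x)
    (h1 : ∀ x, w x ≤ 1) {u : X → ℝ} (hu : MemLp u 2 vol) :
    Integrable w vol ∧ Integrable (fun x => w x * |u x|) vol ∧
      Integrable (fun x => w x * u x ^ 2) vol := by
  have hb : ∀ᵐ x ∂vol, ‖w x‖ ≤ 1 := ae_of_all _ fun x => by
    rw [Real.norm_eq_abs, abs_of_nonneg (h0 x)]; exact h1 x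
  have i1 : Integrable (fun x => |u x|) vol := (hu.integrable one_le_two).abs
  refine ⟨Integrable.of_bound hw.aestronglyMeasurable 1 hb, ?_, ?_⟩
  · exact i1.bdd_mul hw.aestronglyMeasurable hb
  · exact hu.integrable_sq.bdd_mul hw.aestronglyMeasurable hb

omit [TopologicalSpace X] [BorelSpace X] in
lemma Adm.add [IsFiniteMeasure vol] {u : ℕ → X → ℝ} (hu : ∀ n, MemLp (u n) 2 vol) {w₁ w₂ : X → ℝ}
    (h₁ : Adm vol u w₁) (h₂ : Adm vol u w₂) (h : ∀ x, w₁ x + w₂ x ≤ 1) :
    Adm vol u (fun x => w₁ x + w₂ x) := by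
  refine ⟨h₁.meas.add h₂.meas, fun x => add_nonneg (h₁.nn x) (h₂.nn x), h, fun ε hε => ?_⟩
  filter_upwards [h₁.bd (ε / 2) (by positivity), h₂.bd (ε / 2) (by positivity)] with n n1 n2
  obtain ⟨a1, a2, a3⟩ := int_w h₁.meas h₁.nn h₁.le (hu n)
  obtain ⟨b1, b2, b3⟩ := int_w h₂.meas h₂.nn h₂.le (hu n)
  have e1 : ∫ x, (w₁ x + w₂ x) * |u n x| ∂vol =
      (∫ x, w₁ x * |u n x| ∂vol) + ∫ x, w₂ x * |u n x| ∂vol := by
    rw [← integral_add a2 b2]; congr 1; funext x; ring
  have e2 : ∫ x, (w₁ x + w₂ x) * u n x ^ 2 ∂vol =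
      (∫ x, w₁ x * u n x ^ 2 ∂vol) + ∫ x, w₂ x * u n x ^ 2 ∂vol := by
    rw [← integral_add a3 b3]; congr 1; funext x; ring
  rw [e1, e2, integral_add a1 b1]
  have c1 : 0 ≤ ∫ x, w₁ x ∂vol := integral_nonneg h₁.nn
  have c2 : 0 ≤ ∫ x, w₂ x ∂vol := integral_nonneg h₂.nn
  have c3 : 0 ≤ ∫ x, w₁ x * u n x ^ 2 ∂vol :=
    integral_nonneg fun x => mul_nonneg (h₁.nn x) (sq_nonneg _)
  have c4 : 0 ≤ ∫ x, w₂ x * u n x ^ 2 ∂vol :=
    integral_nonneg fun x => mul_nonneg (h₂.nn x) (sq_nonneg _)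
  have key := mul_le_mul_of_nonneg_left (cs_num c1 c3 c2 c4)
    (by have := mm_pos; positivity : 0 ≤ mm * √2)
  linarith

lemma Adm.chart [IsFiniteMeasure vol] {A : ℕ → IsoChart X vol} {lam : ℕ → ℝ}
    (hlam : Tendsto lam atTop atTop)
    {u : ℕ → X → ℝ} (hu : ∀ n, IsEigen A (lam n) (u n)) {M : ℝ}
    (hM : ∀ n, MemLp (u n) 2 vol ∧ ∫ x, u n x ^ 2 ∂vol ≤ M) (i : ℕ) {χ : ℂ → ℝ}
    (hχ : TF (A i).c.target χ) (χ0 : ∀ z, 0 ≤ χ z) (χ1 : ∀ z, χ z ≤ 1) :
    Adm vol u (Wc (A i) χ) := by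
  refine ⟨Wc_meas _ hχ.1.continuous, fun x => Set.indicator_nonneg (fun x _ => χ0 _) x,
    fun x => ?_, fun ε hε => ?_⟩
  · unfold Wc
    by_cases hx : x ∈ (A i).c.source
    · rw [Set.indicator_of_mem hx]; exact χ1 _
    · rw [Set.indicator_of_notMem hx]; exact zero_le_one
  · have key := loc_seq (A i).c.open_target (A i).smooth (A i).pos hlam
      (u := fun n => u n ∘ (A i).c.symm) (fun n => (hu n).smooth i) (fun n => (hu n).eq i)
      (loc_l2 (A i) (fun n => (hu n).smooth i) hM) hχ χ0 ε hε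
    refine key.mono fun n hn => ?_
    have mu := (hu n).meas
    have e1 := trans (A i) hχ (F := fun x => |u n x|) mu.abs
    have e2 := trans (A i) hχ (F := fun x => u n x ^ 2) (mu.pow_const 2)
    have e3 := trans (A i) hχ (F := fun _ => (1 : ℝ)) measurable_const
    simp only [mul_one] at e3
    rw [e1, e2, e3]
    exact hn

/-- the volume in a chart -/
lemma vol_chart (C : IsoChart X vol) {S : Set X} (hS : MeasurableSet S) (hSC : S ⊆ C.c.source) :
    vol S = C.m (C.c.symm ⁻¹' S) := by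
  have h := congrArg (fun μ : Measure X => μ S) C.map
  simp only [Measure.map_apply_of_aemeasurable C.aem' hS, Measure.restrict_apply hS,
    Set.inter_eq_self_of_subset_left hSC] at h
  exact h.symm

omit [BorelSpace X] in
lemma m_compl (C : IsoChart X vol) : C.m (C.c.target)ᶜ = 0 := by
  unfold IsoChart.m
  refine withDensity_absolutelyContinuous _ _ ?_
  rw [Measure.restrict_apply C.c.open_target.measurableSet.compl]
  simp

theorem exh [T2Space X] [IsFiniteMeasure vol] {A : ℕ → IsoChart X vol} {lam : ℕ → ℝ}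
    (hlam : Tendsto lam atTop atTop)
    {u : ℕ → X → ℝ} (hu : ∀ n, IsEigen A (lam n) (u n)) {M : ℝ}
    (hM : ∀ n, MemLp (u n) 2 vol ∧ ∫ x, u n x ^ 2 ∂vol ≤ M) (N : ℕ) :
    ∀ (U : Set X), IsOpen U → ∀ ε : ℝ, 0 < ε → ∃ w : X → ℝ, Adm vol u w ∧
      (∀ x, x ∉ U → w x = 0) ∧
      vol (U ∩ (⋃ i < N, (A i).c.source) ∩ {x | w x ≠ 1}) ≤ ENNReal.ofReal ε := by
  induction N with
  | zero =>
    intro U hU ε hε
    refine ⟨fun _ => 0, ⟨measurable_const, fun _ => le_rfl, fun _ => zero_le_one,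
      fun ε hε => Eventually.of_forall fun n => ?_⟩, fun _ _ => rfl, ?_⟩
    · simp only [zero_mul, integral_zero, Real.sqrt_zero, mul_zero, zero_add]
      exact hε.le
    · simp
  | succ N ih =>
    intro U hU ε hε
    obtain ⟨C, hC⟩ : ∃ C, C = A N := ⟨_, rfl⟩
    have fm : IsFiniteMeasure C.m := C.fin
    obtain ⟨E, hE⟩ : ∃ E, E = C.c.target ∩ C.c.symm ⁻¹' U := ⟨_, rfl⟩
    have oE : IsOpen E := by
      rw [hE]; exact C.c.continuousOn_symm.isOpen_inter_preimage C.c.open_target hU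
    have d0 : ENNReal.ofReal (ε / 2) ≠ 0 := (ENNReal.ofReal_pos.2 (by positivity)).ne'
    obtain ⟨K, hKE, hK, hK2⟩ := oE.measurableSet.exists_isCompact_sdiff_lt
      (measure_ne_top C.m E) d0
    obtain ⟨χ, hχ, χ1, χ0, χ2⟩ := exists_cut oE hK hKE
    have hχ' : TF C.c.target χ :=
      ⟨hχ.1, hχ.2.1, hχ.2.2.trans (by rw [hE]; exact Set.inter_subset_left)⟩
    obtain ⟨L, hL⟩ : ∃ L, L = C.c.symm '' (tsupport χ) := ⟨_, rfl⟩
    have cL : IsCompact L := by
      rw [hL]
      exact (hχ'.2.1).image_of_continuousOn (C.c.continuousOn_symm.mono hχ'.2.2)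
    have cK : IsCompact (C.c.symm '' K) :=
      hK.image_of_continuousOn (C.c.continuousOn_symm.mono
        (hKE.trans (by rw [hE]; exact Set.inter_subset_left)))
    have LU : L ⊆ U := by
      rw [hL]
      rintro _ ⟨z, hz, rfl⟩
      have := hχ.2.2 hz
      rw [hE] at this
      exact this.2
    have LS : L ⊆ C.c.source := by
      rw [hL]
      rintro _ ⟨z, hz, rfl⟩
      exact C.c.map_target (hχ'.2.2 hz)
    have w1L : ∀ x, x ∉ L → Wc C χ x = 0 := by
      intro x hx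
      unfold Wc
      by_cases hxs : x ∈ C.c.source
      · rw [Set.indicator_of_mem hxs]
        refine image_eq_zero_of_notMem_tsupport fun h => hx ?_
        rw [hL]
        exact ⟨C.c x, h, C.c.left_inv hxs⟩
      · rw [Set.indicator_of_notMem hxs]
    obtain ⟨w', hw', w0, wv⟩ := ih (U \ L) (hU.sdiff cL.isClosed) (ε / 2) (by positivity)
    have aC : Adm vol u (Wc C χ) := by
      rw [hC] at hχ' ⊢
      exact Adm.chart hlam hu hM N hχ' χ0 χ2
    have hsum : ∀ x, w' x + Wc C χ x ≤ 1 := by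
      intro x
      by_cases hx : x ∈ L
      · rw [w0 x fun h => h.2 hx, zero_add]; exact aC.le x
      · rw [w1L x hx, add_zero]; exact hw'.le x
    refine ⟨fun x => w' x + Wc C χ x, hw'.add (fun n => (hM n).1) aC hsum, fun x hx => ?_, ?_⟩
    · show w' x + Wc C χ x = 0
      rw [w0 x fun h => hx h.1, w1L x fun h => hx (LU h), add_zero]
    · have hsub : U ∩ (⋃ i < N + 1, (A i).c.source) ∩ {x | w' x + Wc C χ x ≠ 1} ⊆
          ((U \ L) ∩ (⋃ i < N, (A i).c.source) ∩ {x | w' x ≠ 1}) ∪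
          ((U ∩ C.c.source) \ (C.c.symm '' K)) := by
        rintro x ⟨⟨hxU, hxs⟩, hx1⟩
        by_cases hxN : x ∈ C.c.source
        · right
          refine ⟨⟨hxU, hxN⟩, fun hxK => hx1 ?_⟩
          obtain ⟨z, hz, rfl⟩ := hxK
          have hzt : z ∈ C.c.target := by
            have := hKE hz
            rw [hE] at this
            exact this.1
          have hzL : C.c.symm z ∈ L := by
            rw [hL]
            refine ⟨z, ?_, rfl⟩
            by_contra hcon
            have := image_eq_zero_of_notMem_tsupport hcon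
            rw [χ1 z hz] at this
            exact one_ne_zero this
          show w' (C.c.symm z) + Wc C χ (C.c.symm z) = 1
          rw [w0 _ fun h => h.2 hzL, zero_add]
          unfold Wc
          rw [Set.indicator_of_mem hxN, C.c.right_inv hzt, χ1 z hz]
        · left
          have hxL : x ∉ L := fun h => hxN (LS h)
          refine ⟨⟨⟨hxU, hxL⟩, ?_⟩, ?_⟩
          · obtain ⟨i, hi, hxi⟩ := Set.mem_iUnion₂.1 hxs
            refine Set.mem_iUnion₂.2 ⟨i, ?_, hxi⟩
            rcases Nat.lt_succ_iff_lt_or_eq.1 hi with h | h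
            · exact h
            · rw [h, ← hC] at hxi
              exact absurd hxi hxN
          · intro h
            apply hx1
            show w' x + Wc C χ x = 1
            rw [w1L x hxL, add_zero]
            exact h
      have v2 : vol ((U ∩ C.c.source) \ (C.c.symm '' K)) ≤ ENNReal.ofReal (ε / 2) := by
        have ms : MeasurableSet ((U ∩ C.c.source) \ (C.c.symm '' K)) :=
          (hU.inter C.c.open_source).measurableSet.diff cK.measurableSet
        rw [vol_chart C ms (fun x hx => hx.1.2)]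
        have h1 : C.c.symm ⁻¹' ((U ∩ C.c.source) \ (C.c.symm '' K)) ⊆
            (E \ K) ∪ (C.c.target)ᶜ := by
          intro z hz
          by_cases hzt : z ∈ C.c.target
          · left
            refine ⟨?_, fun hzK => hz.2 ⟨z, hzK, rfl⟩⟩
            rw [hE]
            exact ⟨hzt, hz.1.1⟩
          · right; exact hzt
        refine (measure_mono h1).trans ((measure_union_le _ _).trans ?_)
        rw [m_compl, add_zero]
        exact hK2.le
      refine (measure_mono hsub).trans ((measure_union_le _ _).trans ?_)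
      refine (add_le_add wv v2).trans ?_
      rw [← ENNReal.ofReal_add (by positivity) (by positivity), add_halves]

/-- **The inequality on open sets.** -/
theorem glob [T2Space X] [IsFiniteMeasure vol] {A : ℕ → IsoChart X vol}
    (hA : vol (⋃ i, (A i).c.source)ᶜ = 0) {lam : ℕ → ℝ}
    (hlam : Tendsto lam atTop atTop)
    {u : ℕ → X → ℝ} (hu : ∀ n, IsEigen A (lam n) (u n)) {M : ℝ}
    (hM : ∀ n, MemLp (u n) 2 vol ∧ ∫ x, u n x ^ 2 ∂vol ≤ M) {U : Set X} (hU : IsOpen U) :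
    ∀ ε : ℝ, 0 < ε → ∀ᶠ n in atTop, ∫ x in U, |u n x| ∂vol ≤
      mm * √2 * (√(vol.real U) * √(∫ x in U, u n x ^ 2 ∂vol)) + ε := by
  intro ε hε
  have M0 : 0 ≤ M := (integral_nonneg fun x => sq_nonneg _).trans (hM 0).2
  obtain ⟨δ, hδ, hδ2⟩ : ∃ δ : ℝ, 0 < δ ∧ √(2 * δ) * √M ≤ ε / 2 := by
    refine ⟨(ε / (2 * (√M + 1))) ^ 2 / 2, by positivity, ?_⟩
    have e : 2 * ((ε / (2 * (√M + 1))) ^ 2 / 2) = (ε / (2 * (√M + 1))) ^ 2 := by ring
    rw [e, Real.sqrt_sq (by positivity)]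
    rw [div_mul_eq_mul_div, div_le_div_iff₀ (by positivity) (by norm_num)]
    nlinarith [Real.sqrt_nonneg M]
  have om : ∀ i, MeasurableSet (A i).c.source := fun i => (A i).c.open_source.measurableSet
  obtain ⟨W, hW⟩ : ∃ W : ℕ → Set X, ∀ k, W k = ⋃ i < k, (A i).c.source := ⟨_, fun _ => rfl⟩
  have mW : ∀ k, MeasurableSet (W k) := fun k => by
    rw [hW]; exact MeasurableSet.iUnion fun i => MeasurableSet.iUnion fun _ => om i
  have hlim : Tendsto (fun k => vol ((W k)ᶜ)) atTop (𝓝 0) := by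
    have h1 : Tendsto (vol ∘ fun k => (W k)ᶜ) atTop (𝓝 (vol (⋂ k, (W k)ᶜ))) := by
      refine tendsto_measure_iInter_atTop (fun k => (mW k).compl.nullMeasurableSet) ?_
        ⟨0, measure_ne_top _ _⟩
      intro k l hkl
      refine Set.compl_subset_compl.2 ?_
      rw [hW, hW]
      exact Set.biUnion_subset_biUnion_left fun i hi => lt_of_lt_of_le hi hkl
    have h2 : vol (⋂ k, (W k)ᶜ) = 0 := by
      refine measure_mono_null ?_ hA
      intro x hx
      rw [Set.mem_compl_iff, Set.mem_iUnion]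
      rintro ⟨i, hi⟩
      have := Set.mem_iInter.1 hx (i + 1)
      apply this
      rw [hW]
      exact Set.mem_iUnion₂.2 ⟨i, Nat.lt_succ_self i, hi⟩
    rw [h2] at h1
    exact h1
  obtain ⟨k, hk⟩ := (hlim.eventually
    (gt_mem_nhds (ENNReal.ofReal_pos.2 hδ : (0 : ℝ≥0∞) < ENNReal.ofReal δ))).exists
  obtain ⟨w, hw, w0, wv⟩ := exh hlam hu hM k U hU δ hδ
  obtain ⟨Z, hZ⟩ : ∃ Z, Z = U ∩ {x | w x ≠ 1} := ⟨_, rfl⟩
  have mZ : MeasurableSet Z := by
    rw [hZ]
    exact hU.measurableSet.inter (hw.meas (measurableSet_singleton 1)).compl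
  have vZ : vol.real Z ≤ 2 * δ := by
    have h1 : vol Z ≤ ENNReal.ofReal (2 * δ) := by
      have h2 : Z ⊆ (U ∩ (⋃ i < k, (A i).c.source) ∩ {x | w x ≠ 1}) ∪ (W k)ᶜ := by
        rw [hZ]
        rintro x ⟨h3, h4⟩
        by_cases h5 : x ∈ W k
        · left; rw [hW] at h5; exact ⟨⟨h3, h5⟩, h4⟩
        · right; exact h5
      refine (measure_mono h2).trans ((measure_union_le _ _).trans ?_)
      refine (add_le_add wv hk.le).trans ?_
      rw [← ENNReal.ofReal_add hδ.le hδ.le, two_mul]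
    exact ENNReal.toReal_le_of_le_ofReal (by positivity) h1
  filter_upwards [hw.bd (ε / 2) (by positivity)] with n hn
  obtain ⟨a1, a2, a3⟩ := int_w hw.meas hw.nn hw.le (hM n).1
  have iu : Integrable (fun x => |u n x|) vol := ((hM n).1.integrable one_le_two).abs
  have iq : Integrable (fun x => u n x ^ 2) vol := (hM n).1.integrable_sq
  have c1 : ∫ x, w x ∂vol ≤ vol.real U := by
    have h1 : ∫ x, w x ∂vol ≤ ∫ x, U.indicator (fun _ => (1 : ℝ)) x ∂vol := by
      refine integral_mono a1 ((integrable_const 1).indicator hU.measurableSet) fun x => ?_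
      by_cases hx : x ∈ U
      · show w x ≤ _
        rw [Set.indicator_of_mem hx]; exact hw.le x
      · show w x ≤ _
        rw [Set.indicator_of_notMem hx, w0 x hx]
    rwa [integral_indicator hU.measurableSet, setIntegral_const, smul_eq_mul, mul_one] at h1
  have c2 : ∫ x, w x * u n x ^ 2 ∂vol ≤ ∫ x in U, u n x ^ 2 ∂vol := by
    rw [← integral_indicator hU.measurableSet]
    refine integral_mono a3 (iq.indicator hU.measurableSet) fun x => ?_
    by_cases hx : x ∈ U
    · show w x * u n x ^ 2 ≤ _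
      rw [Set.indicator_of_mem hx]
      nlinarith [hw.le x, sq_nonneg (u n x)]
    · show w x * u n x ^ 2 ≤ _
      rw [Set.indicator_of_notMem hx, w0 x hx, zero_mul]
  have c3 : ∫ x in U, |u n x| ∂vol ≤ (∫ x, w x * |u n x| ∂vol) + ∫ x in Z, |u n x| ∂vol := by
    rw [← integral_indicator hU.measurableSet, ← integral_indicator mZ,
      ← integral_add a2 (iu.indicator mZ)]
    refine integral_mono (iu.indicator hU.measurableSet) (a2.add (iu.indicator mZ)) fun x => ?_
    show U.indicator (fun x => |u n x|) x ≤ w x * |u n x| + Z.indicator (fun x => |u n x|) x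
    have n1 : 0 ≤ Z.indicator (fun x => |u n x|) x :=
      Set.indicator_nonneg (fun _ _ => abs_nonneg _) x
    by_cases hx : x ∈ U
    · rw [Set.indicator_of_mem hx]
      by_cases h1 : w x = 1
      · rw [h1, one_mul]; linarith
      · rw [Set.indicator_of_mem (by rw [hZ]; exact ⟨hx, h1⟩)]
        nlinarith [hw.nn x, abs_nonneg (u n x)]
    · rw [Set.indicator_of_notMem hx]
      exact add_nonneg (mul_nonneg (hw.nn x) (abs_nonneg _)) n1
  have c4 : ∫ x in Z, |u n x| ∂vol ≤ ε / 2 := by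
    have h1 := cs (μ := vol.restrict Z) (w := fun _ => (1 : ℝ)) (f := fun x => |u n x|)
      (fun _ => zero_le_one) (integrable_const 1)
      (by simp only [one_mul]; exact iu.integrableOn)
      (by simp only [one_mul, sq_abs]; exact iq.integrableOn)
    simp only [one_mul, sq_abs] at h1
    refine h1.trans ?_
    have h2 : ∫ _ in Z, (1 : ℝ) ∂vol = vol.real Z := by
      rw [setIntegral_const, smul_eq_mul, mul_one]
    rw [h2]
    refine le_trans ?_ hδ2
    have h3 : ∫ x in Z, u n x ^ 2 ∂vol ≤ M :=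
      (setIntegral_le_integral iq (ae_of_all _ fun x => sq_nonneg _)).trans (hM n).2
    exact mul_le_mul (Real.sqrt_le_sqrt vZ) (Real.sqrt_le_sqrt h3) (Real.sqrt_nonneg _)
      (Real.sqrt_nonneg _)
  have c5 : √(∫ x, w x ∂vol) * √(∫ x, w x * u n x ^ 2 ∂vol) ≤
      √(vol.real U) * √(∫ x in U, u n x ^ 2 ∂vol) :=
    mul_le_mul (Real.sqrt_le_sqrt c1) (Real.sqrt_le_sqrt c2) (Real.sqrt_nonneg _)
      (Real.sqrt_nonneg _)
  have c6 := mul_le_mul_of_nonneg_left c5 (by have := mm_pos; positivity : 0 ≤ mm * √2)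
  linarith

end

end Pool.Agent.Helper61A.PW
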