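import Pool.Agent.Helper61A.PW.Field
import Pool.Agent.TH421.AC.Main

/-!
Project PW (helper61): the integrated inequality.
-/

set_option autoImplicit false
open MeasureTheory Filter Topology Complex
open scoped ContDiff ENNReal

namespace Pool.Agent.Helper61A.PW

open Pool.Agent.W745.RW Pool.Agent.TH294.RS Pool.Agent.TH294.RG Pool.Agent.TH421.DF
  Pool.Agent.TH421.AC

noncomputable section

lemma et_cd : ContDiffOn ℝ 1 et (Set.Ioo (-1) 1) := by
  have h : (1 : WithTop ℕ∞) = 0 + 1 := by simp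
  rw [h, contDiffOn_succ_iff_deriv_of_isOpen isOpen_Ioo]
  refine ⟨fun x hx => (et_d hx).differentiableAt.differentiableWithinAt, by simp, ?_⟩
  rw [contDiffOn_zero]
  exact ed_c.congr fun x hx => (et_d hx).deriv

lemma ka_cd : ContDiffOn ℝ 1 ka (Set.Ioo (-1) 1) := by
  have h : (1 : WithTop ℕ∞) = 0 + 1 := by simp
  rw [h, contDiffOn_succ_iff_deriv_of_isOpen isOpen_Ioo]
  refine ⟨fun x hx => (ka_d hx).differentiableAt.differentiableWithinAt, by simp, ?_⟩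
  rw [contDiffOn_zero]
  exact kd_c.congr fun x hx => (ka_d hx).deriv

/-- `h` times the derivative in the direction `v` -/
def pd (h : ℝ) (v : ℂ) (f : ℂ → ℝ) (z : ℂ) : ℝ := h * fderiv ℝ f z v

variable {Ω : Set ℂ}

lemma pd_sm (hΩ : IsOpen Ω) {f : ℂ → ℝ} (hf : ContDiffOn ℝ ∞ f Ω) (h : ℝ) (v : ℂ) :
    ContDiffOn ℝ ∞ (pd h v f) Ω := contDiffOn_const.mul (rsd hΩ hf v)

lemma pd_HD (hΩ : IsOpen Ω) {f : ℂ → ℝ} (hf : ContDiffOn ℝ ∞ f Ω) (h : ℝ) {z : ℂ} (hz : z ∈ Ω) :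
    HD h f z (pd h 1 f z) (pd h I f z) := HD.of (rdA hΩ hf hz)

lemma rcomm (hB : IsOpen Ω) {f : ℂ → ℝ} (hf : ContDiffOn ℝ ∞ f Ω) {z : ℂ}
    (hz : z ∈ Ω) (a b : ℂ) : fderiv ℝ (fun w => fderiv ℝ f w b) z a =
      fderiv ℝ (fun w => fderiv ℝ f w a) z b := by
  have hfa : ContDiffAt ℝ ∞ f z := hf.contDiffAt (hB.mem_nhds hz)
  have hs : IsSymmSndFDerivAt ℝ f z := hfa.isSymmSndFDerivAt (by
    simp only [minSmoothness_of_isRCLikeNormedField]
    exact (WithTop.coe_le_coe.mpr (le_top : (2 : ℕ∞) ≤ ⊤) :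
      ((2 : ℕ∞) : WithTop ℕ∞) ≤ ((⊤ : ℕ∞) : WithTop ℕ∞)))
  have hd : DifferentiableAt ℝ (fderiv ℝ f) z := by
    have h1 : ContDiffOn ℝ ∞ (fderiv ℝ f) Ω := hf.fderiv_of_isOpen hB (by simp)
    exact (h1.contDiffAt (hB.mem_nhds hz)).differentiableAt (by simp)
  have key : ∀ p q : ℂ, fderiv ℝ (fun w => fderiv ℝ f w q) z p = fderiv ℝ (fderiv ℝ f) z p q := by
    intro p q
    rw [fderiv_clm_apply hd (differentiableAt_const q)]
    simp
  rw [key, key]
  exact hs a b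

lemma pd_comm (hB : IsOpen Ω) {f : ℂ → ℝ} (hf : ContDiffOn ℝ ∞ f Ω) (h : ℝ) (a b : ℂ) {z : ℂ}
    (hz : z ∈ Ω) : pd h a (pd h b f) z = pd h b (pd h a f) z := by
  show h * fderiv ℝ (fun w => h * fderiv ℝ f w b) z a = h * fderiv ℝ (fun w => h * fderiv ℝ f w a) z b
  rw [fderiv_const_mul (rdA hB (rsd hB hf b) hz), fderiv_const_mul (rdA hB (rsd hB hf a) hz)]
  simp only [smul_apply, smul_eq_mul]
  rw [rcomm hB hf hz a b]

lemma pd_congr (hB : IsOpen Ω) {f g : ℂ → ℝ} (hfg : ∀ z ∈ Ω, f z = g z) (h : ℝ) (v : ℂ) {z : ℂ}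
    (hz : z ∈ Ω) : pd h v f z = pd h v g z := by
  have : f =ᶠ[𝓝 z] g := by
    filter_upwards [hB.mem_nhds hz] with w hw
    exact hfg w hw
  unfold pd
  rw [this.fderiv_eq]

/-- the divergence theorem -/
lemma div_zero' (hΩ : IsOpen Ω) {φ : ℂ → ℝ} (hφ : TF Ω φ) {V : ℂ → ℝ} (hV : ContDiffOn ℝ 1 V Ω)
    (v : ℂ) : Integrable (fun z => φ z * fderiv ℝ V z v + V z * fderiv ℝ φ z v) ∧
      ∫ z, (φ z * fderiv ℝ V z v + V z * fderiv ℝ φ z v) = 0 := by
  obtain ⟨S, hS⟩ : ∃ S : Set ℂ, S = tsupport φ := ⟨_, rfl⟩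
  have hSc : IsCompact S := by rw [hS]; exact hφ.2.1
  have hSB : S ⊆ Ω := by rw [hS]; exact hφ.2.2
  have z0 : ∀ z, z ∉ S → φ z = 0 := fun z hz => image_eq_zero_of_notMem_tsupport (by rwa [hS] at hz)
  have z1 : ∀ z, z ∉ S → fderiv ℝ φ z v = 0 := fun z hz => by
    rw [fderiv_of_notMem_tsupport ℝ (by rwa [hS] at hz)]; rfl
  obtain ⟨U, hU⟩ : ∃ U : ℂ → ℝ, U = fun z => φ z * V z := ⟨_, rfl⟩
  have sφ : ContDiff ℝ 1 φ := hφ.1.of_le (by exact_mod_cast le_top)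
  have sU : ContDiffOn ℝ 1 U Ω := by
    rw [hU]; exact sφ.contDiffOn.mul hV
  have zU : ∀ z, z ∉ S → U z = 0 := fun z hz => by
    rw [hU]; show φ z * _ = 0; rw [z0 z hz, zero_mul]
  have nhU : ∀ z, z ∉ S → U =ᶠ[𝓝 z] fun _ => 0 := by
    intro z hz
    filter_upwards [hSc.isClosed.isOpen_compl.mem_nhds (hz : z ∈ Sᶜ)] with w hw
    exact zU w hw
  have gU : ContDiff ℝ 1 U := by
    refine contDiff_iff_contDiffAt.2 fun w => ?_
    by_cases hw : w ∈ Ω
    · exact sU.contDiffAt (hΩ.mem_nhds hw)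
    · exact contDiffAt_const.congr_of_eventuallyEq (nhU w fun h => hw (hSB h))
  have kU : HasCompactSupport U := HasCompactSupport.intro hSc zU
  have h1 : Continuous fun z => fderiv ℝ U z v :=
    (gU.continuous_fderiv (by simp)).clm_apply continuous_const
  have hi : Integrable (fun z => fderiv ℝ U z v) :=
    h1.integrable_of_hasCompactSupport (kU.fderiv_apply ℝ v)
  have h2 := integral_mul_fderiv_eq_neg_fderiv_mul_of_integrable (μ := (volume : Measure ℂ))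
    (f := fun _ : ℂ => (1 : ℝ)) (g := U) (v := v) (by simp) (by simpa using hi)
    (by simpa using gU.continuous.integrable_of_hasCompactSupport kU)
    (fun x _ => differentiableAt_const _)
    (fun x _ => (gU.differentiable (by simp)) x)
  have h3 : ∫ z, fderiv ℝ U z v = 0 := by simpa using h2
  have e : (fun z => φ z * fderiv ℝ V z v + V z * fderiv ℝ φ z v) = fun z => fderiv ℝ U z v := by
    funext z
    by_cases hz : z ∈ Ω
    · have d1 : HasFDerivAt φ (fderiv ℝ φ z) z :=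
        (hφ.1.differentiable (by simp) z).hasFDerivAt
      have d2 : HasFDerivAt V (fderiv ℝ V z) z :=
        ((hV.contDiffAt (hΩ.mem_nhds hz)).differentiableAt (by simp)).hasFDerivAt
      have d5 := (d1.mul d2).fderiv
      have e3 := congrArg (fun L : ℂ →L[ℝ] ℝ => L v) d5
      rw [hU]
      refine Eq.symm (Eq.trans e3 ?_)
      simp only [add_apply, smul_apply, smul_eq_mul]
    · have hzS : z ∉ S := fun h => hz (hSB h)
      rw [z0 z hzS, z1 z hzS, (nhU z hzS).fderiv_eq]; simp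
  rw [e]
  exact ⟨hi, h3⟩

end

end Pool.Agent.Helper61A.PW
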