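import Mathlib

/-!
Project PW (helper61): first absolute moments of weak limits.
-/

set_option autoImplicit false
open MeasureTheory Filter Topology
open scoped ENNReal BoundedContinuousFunction

namespace Pool.Agent.Helper61A.PW

noncomputable section

/-- the truncated absolute value -/
def tr (k : ℕ) : ℝ →ᵇ ℝ :=
  BoundedContinuousFunction.ofNormedAddCommGroup (fun x : ℝ => min |x| (k : ℝ))
    (continuous_abs.min continuous_const) k (fun x => by
      rw [Real.norm_eq_abs, abs_of_nonneg (le_min (abs_nonneg x) (Nat.cast_nonneg k))]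
      exact min_le_right _ _)

lemma tr_apply (k : ℕ) (x : ℝ) : tr k x = min |x| (k : ℝ) := rfl

theorem lim_abs {μ : ℕ → Measure ℝ} {ν : Measure ℝ} [IsFiniteMeasure ν]
    (hw : ∀ g : ℝ →ᵇ ℝ, Tendsto (fun n => ∫ x, g x ∂(μ n)) atTop (𝓝 (∫ x, g x ∂ν))) {b : ℝ}
    (hb : ∀ ε : ℝ, 0 < ε → ∀ k : ℕ, ∀ᶠ n in atTop, ∫ x, tr k x ∂(μ n) ≤ b + ε) :
    Integrable (fun x => |x|) ν ∧ ∫ x, |x| ∂ν ≤ b := by
  have h1 : ∀ k : ℕ, ∫ x, tr k x ∂ν ≤ b := by
    intro k
    refine le_of_forall_pos_le_add fun ε hε => ?_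
    exact le_of_tendsto (hw (tr k)) (hb ε hε k)
  have n0 : ∀ k x, 0 ≤ tr k x := fun k x => le_min (abs_nonneg x) (Nat.cast_nonneg k)
  have b0 : 0 ≤ b := (integral_nonneg (n0 0)).trans (h1 0)
  have h2 : ∫⁻ x, ENNReal.ofReal |x| ∂ν ≤ ENNReal.ofReal b := by
    have e1 : ∀ x : ℝ, ENNReal.ofReal |x| = ⨆ k : ℕ, ENNReal.ofReal (tr k x) := by
      intro x
      refine le_antisymm ?_ (iSup_le fun k => ENNReal.ofReal_le_ofReal (min_le_left _ _))
      obtain ⟨k, hk⟩ := exists_nat_ge |x|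
      refine le_iSup_of_le k (ENNReal.ofReal_le_ofReal ?_)
      rw [tr_apply, min_eq_left hk]
    simp only [e1]
    rw [lintegral_iSup]
    · refine iSup_le fun k => ?_
      rw [← ofReal_integral_eq_lintegral_ofReal ((tr k).integrable ν) (ae_of_all _ (n0 k))]
      exact ENNReal.ofReal_le_ofReal (h1 k)
    · exact fun k => (tr k).continuous.measurable.ennreal_ofReal
    · intro k l hkl x
      refine ENNReal.ofReal_le_ofReal (min_le_min le_rfl ?_)
      exact_mod_cast hkl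
  have i1 : Integrable (fun x : ℝ => |x|) ν := by
    refine ⟨continuous_abs.aestronglyMeasurable, ?_⟩
    rw [hasFiniteIntegral_iff_norm]
    refine lt_of_le_of_lt (le_of_eq ?_) (lt_of_le_of_lt h2 ENNReal.ofReal_lt_top)
    congr 1; funext x
    rw [Real.norm_eq_abs, abs_abs]
  refine ⟨i1, ?_⟩
  rw [integral_eq_lintegral_of_nonneg_ae (ae_of_all _ fun x => abs_nonneg x)
    continuous_abs.aestronglyMeasurable]
  exact ENNReal.toReal_le_of_le_ofReal b0 h2

end

end Pool.Agent.Helper61A.PW
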