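import Pool.Agent.Helper61A.PW.Fin

/-!
Project PW (helper61): the local inequality for sequences of eigenfunctions.
-/

set_option autoImplicit false
open MeasureTheory Filter Topology Complex
open scoped ContDiff ENNReal

namespace Pool.Agent.Helper61A.PW

open Pool.Agent.W745.RW Pool.Agent.TH294.RS Pool.Agent.TH294.RG Pool.Agent.TH421.DF
  Pool.Agent.TH421.AC

noncomputable section

variable {Ω : Set ℂ}

/-- Cauchy–Schwarz -/
lemma cs {X : Type*} [MeasurableSpace X] {μ : Measure X} {w f : X → ℝ} (hw : ∀ z, 0 ≤ w z)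
    (i0 : Integrable w μ) (i1 : Integrable (fun z => w z * f z) μ)
    (i2 : Integrable (fun z => w z * f z ^ 2) μ) :
    ∫ z, w z * f z ∂μ ≤ √(∫ z, w z ∂μ) * √(∫ z, w z * f z ^ 2 ∂μ) := by
  obtain ⟨α, hα⟩ : ∃ α, α = ∫ z, w z ∂μ := ⟨_, rfl⟩
  obtain ⟨β, hβ⟩ : ∃ β, β = ∫ z, w z * f z ^ 2 ∂μ := ⟨_, rfl⟩
  obtain ⟨γ, hγ⟩ : ∃ γ, γ = ∫ z, w z * f z ∂μ := ⟨_, rfl⟩
  have α0 : 0 ≤ α := by rw [hα]; exact integral_nonneg hw
  have β0 : 0 ≤ β := by
    rw [hβ]; exact integral_nonneg fun z => mul_nonneg (hw z) (sq_nonneg _)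
  have q : ∀ t : ℝ, 0 ≤ α * (t * t) + (-2 * γ) * t + β := by
    intro t
    have h1 : 0 ≤ ∫ z, w z * (f z - t) ^ 2 ∂μ :=
      integral_nonneg fun z => mul_nonneg (hw z) (sq_nonneg _)
    have e : (fun z => w z * (f z - t) ^ 2) =
        fun z => t * t * w z + (-2 * t) * (w z * f z) + w z * f z ^ 2 := by
      funext z; ring
    rw [e] at h1
    have k1 : Integrable (fun z => t * t * w z) μ := i0.const_mul _
    have k2 : Integrable (fun z => (-2 * t) * (w z * f z)) μ := i1.const_mul _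
    have k12 : Integrable (fun z => t * t * w z + (-2 * t) * (w z * f z)) μ := k1.add k2
    rw [integral_add k12 i2, integral_add k1 k2, integral_const_mul, integral_const_mul,
      ← hα, ← hβ, ← hγ] at h1
    linarith
  have hd := discrim_le_zero q
  unfold discrim at hd
  have h2 : γ ^ 2 ≤ α * β := by linarith
  rw [← hα, ← hβ, ← hγ, ← Real.sqrt_mul α0]
  exact Real.le_sqrt_of_sq_le h2

/-- the sum of the squares -/
def EE (h : ℝ) (u : ℂ → ℝ) (z : ℂ) : ℝ :=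
  1 + u z ^ 2 + pd h 1 u z ^ 2 + pd h I u z ^ 2 + pd h 1 (pd h 1 u) z ^ 2 +
    pd h I (pd h 1 u) z ^ 2 + pd h I (pd h I u) z ^ 2

lemma abs_le_sq (x : ℝ) : |x| ≤ 1 + x ^ 2 := by
  rw [← sq_abs x]; nlinarith [sq_nonneg (|x| - 1)]

lemma NN_le (h : ℝ) (u : ℂ → ℝ) (z : ℂ) : NN h u z ≤ 5 * EE h u z := by
  unfold NN EE
  have h1 := abs_le_sq (pd h 1 u z)
  have h2 := abs_le_sq (pd h I u z)
  have h3 := abs_le_sq (pd h 1 (pd h 1 u) z)
  have h4 := abs_le_sq (pd h I (pd h 1 u) z)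
  have h5 := abs_le_sq (pd h I (pd h I u) z)
  nlinarith [sq_nonneg (u z), sq_nonneg (pd h 1 u z), sq_nonneg (pd h I u z),
    sq_nonneg (pd h 1 (pd h 1 u) z), sq_nonneg (pd h I (pd h 1 u) z),
    sq_nonneg (pd h I (pd h I u) z)]

lemma EE_c (hΩ : IsOpen Ω) {u : ℂ → ℝ} (hu : ContDiffOn ℝ ∞ u Ω) (h : ℝ) :
    ContinuousOn (EE h u) Ω := by
  have a1 := pd_sm hΩ hu h 1
  have a2 := pd_sm hΩ hu h I
  exact (((((continuousOn_const.add (hu.continuousOn.pow 2)).add (a1.continuousOn.pow 2)).add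
    (a2.continuousOn.pow 2)).add ((pd_sm hΩ a1 h 1).continuousOn.pow 2)).add
    ((pd_sm hΩ a1 h I).continuousOn.pow 2)).add ((pd_sm hΩ a2 h I).continuousOn.pow 2)

/-- **The inequality for a single function.** -/
theorem single (hΩ : IsOpen Ω) {ρ : ℂ → ℝ} (hρ : ContDiffOn ℝ ∞ ρ Ω) (hρ0 : ∀ z ∈ Ω, 0 < ρ z)
    {φ : ℂ → ℝ} (hφ : TF Ω φ) (hφ0 : ∀ z, 0 ≤ φ z) :
    ∃ C : ℝ, 0 ≤ C ∧ ∀ (h : ℝ) (u : ℂ → ℝ), 0 < h → ContDiffOn ℝ ∞ u Ω →
      (∀ z ∈ Ω, pd h 1 (pd h 1 u) z + pd h I (pd h I u) z = -(ρ z * u z)) →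
      ∫ z, φ z * (ρ z * |u z|) ≤ mm * (√(∫ z, φ z * ρ z) *
        √(2 * (∫ z, φ z * (ρ z * u z ^ 2)) + h * (C * ∫ z in tsupport φ, EE h u z))) +
        h * (C * ∫ z in tsupport φ, EE h u z) := by
  obtain ⟨C1, C10, H1⟩ := step2 hΩ hρ hρ0 hφ hφ0
  obtain ⟨C2, C20, H2⟩ := step3 hΩ hρ hφ
  refine ⟨5 * C1 + C2, by positivity, fun h u hh hu he => ?_⟩
  have hSc : IsCompact (tsupport φ) := hφ.2.1
  have hSB : tsupport φ ⊆ Ω := hφ.2.2
  have z0 : ∀ z, z ∉ tsupport φ → φ z = 0 := fun z hz => image_eq_zero_of_notMem_tsupport hz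
  have cφ : Continuous φ := hφ.1.continuous
  have cρ : ContinuousOn ρ (tsupport φ) := hρ.continuousOn.mono hSB
  have cu : ContinuousOn u (tsupport φ) := hu.continuousOn.mono hSB
  have a1 := pd_sm hΩ hu h 1
  have a2 := pd_sm hΩ hu h I
  have c1 : ContinuousOn (pd h 1 u) (tsupport φ) := a1.continuousOn.mono hSB
  have c2 : ContinuousOn (pd h I u) (tsupport φ) := a2.continuousOn.mono hSB
  have cP := (Pf_c hΩ hρ hρ0 hu h).mono hSB
  have k1 := H1 h u hh hu he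
  have k2 := H2 h u hh hu he
  obtain ⟨E, hE⟩ : ∃ E, E = ∫ z in tsupport φ, EE h u z := ⟨_, rfl⟩
  have cE : ContinuousOn (EE h u) (tsupport φ) := (EE_c hΩ hu h).mono hSB
  have E0 : 0 ≤ E := by
    rw [hE]; exact integral_nonneg fun z => by unfold EE; positivity
  have n1 : ∫ z in tsupport φ, NN h u z ≤ 5 * E := by
    rw [hE, ← integral_const_mul]
    exact intK_mono hSc ((NN_c hΩ hu h).mono hSB) (continuousOn_const.mul cE)
      fun z _ => NN_le h u z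
  have n2 : ∫ z in tsupport φ, (u z ^ 2 + pd h 1 u z ^ 2 + pd h I u z ^ 2) ≤ E := by
    rw [hE]
    refine intK_mono hSc (((cu.pow 2).add (c1.pow 2)).add (c2.pow 2)) cE fun z _ => ?_
    unfold EE
    linarith [sq_nonneg (pd h 1 (pd h 1 u) z), sq_nonneg (pd h I (pd h 1 u) z),
      sq_nonneg (pd h I (pd h I u) z)]
  have i0 : Integrable (fun z => φ z * ρ z) :=
    rint hSc (cφ.continuousOn.mul cρ) fun z hz => by rw [z0 z hz, zero_mul]
  have i1 : Integrable (fun z => (φ z * ρ z) * Pf h ρ u z) :=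
    rint hSc ((cφ.continuousOn.mul cρ).mul cP) fun z hz => by rw [z0 z hz, zero_mul, zero_mul]
  have i2 : Integrable (fun z => (φ z * ρ z) * Pf h ρ u z ^ 2) :=
    rint hSc ((cφ.continuousOn.mul cρ).mul (cP.pow 2)) fun z hz => by
      rw [z0 z hz, zero_mul, zero_mul]
  have w0 : ∀ z, 0 ≤ φ z * ρ z := fun z => by
    by_cases hz : z ∈ tsupport φ
    · exact mul_nonneg (hφ0 z) (hρ0 z (hSB hz)).le
    · rw [z0 z hz, zero_mul]
  have hcs := cs w0 i0 i1 i2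
  have e1 : ∫ z, φ z * (ρ z * Pf h ρ u z) = ∫ z, (φ z * ρ z) * Pf h ρ u z := by
    congr 1; funext z; ring
  have j1 : Integrable (fun z => φ z * (ρ z * u z ^ 2)) :=
    rint hSc (cφ.continuousOn.mul (cρ.mul (cu.pow 2))) fun z hz => by rw [z0 z hz, zero_mul]
  have j2 : Integrable (fun z => φ z * (pd h 1 u z ^ 2 + pd h I u z ^ 2)) :=
    rint hSc (cφ.continuousOn.mul ((c1.pow 2).add (c2.pow 2))) fun z hz => by
      rw [z0 z hz, zero_mul]
  have e2 : ∫ z, (φ z * ρ z) * Pf h ρ u z ^ 2 = (∫ z, φ z * (ρ z * u z ^ 2)) +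
      ∫ z, φ z * (pd h 1 u z ^ 2 + pd h I u z ^ 2) := by
    rw [← integral_add j1 j2]
    congr 1; funext z
    by_cases hz : z ∈ tsupport φ
    · have ρz := hρ0 z (hSB hz)
      have : Pf h ρ u z ^ 2 = u z ^ 2 + (ρ z)⁻¹ * (pd h 1 u z ^ 2 + pd h I u z ^ 2) := by
        unfold Pf; exact Real.sq_sqrt (by positivity)
      rw [this]
      field_simp
    · rw [z0 z hz]; simp
  rw [e1] at k1
  rw [e2] at hcs
  rw [← hE]
  have m1 : (∫ z, φ z * (ρ z * u z ^ 2)) +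
      ∫ z, φ z * (pd h 1 u z ^ 2 + pd h I u z ^ 2) ≤
      2 * (∫ z, φ z * (ρ z * u z ^ 2)) + h * ((5 * C1 + C2) * E) := by
    have h1 : h * (C2 * ∫ z in tsupport φ, (u z ^ 2 + pd h 1 u z ^ 2 + pd h I u z ^ 2)) ≤
        h * (C2 * E) := by gcongr
    have h2 : 0 ≤ h * (C1 * E) := by positivity
    linarith
  have m2 := Real.sqrt_le_sqrt m1
  have m3 : √(∫ z, φ z * ρ z) * √((∫ z, φ z * (ρ z * u z ^ 2)) +
      ∫ z, φ z * (pd h 1 u z ^ 2 + pd h I u z ^ 2)) ≤ √(∫ z, φ z * ρ z) *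
      √(2 * (∫ z, φ z * (ρ z * u z ^ 2)) + h * ((5 * C1 + C2) * E)) :=
    mul_le_mul_of_nonneg_left m2 (Real.sqrt_nonneg _)
  have m4 := mul_le_mul_of_nonneg_left (hcs.trans m3) mm_pos.le
  have m5 : h * (C1 * ∫ z in tsupport φ, NN h u z) ≤ h * (C1 * (5 * E)) := by gcongr
  have m6 : 0 ≤ h * (C2 * E) := by positivity
  linarith

lemma sum_bd {S : Set ℂ} {F G : ℂ → ℝ} {a b : ℝ}
    (hF : IntegrableOn F S volume ∧ ∫ z in S, F z ≤ a)
    (hG : IntegrableOn G S volume ∧ ∫ z in S, G z ≤ b) :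
    IntegrableOn (fun z => F z + G z) S volume ∧ ∫ z in S, (F z + G z) ≤ a + b := by
  refine ⟨hF.1.add hG.1, ?_⟩
  rw [integral_add hF.1 hG.1]
  exact add_le_add hF.2 hG.2

/-- **The local inequality for sequences.** -/
theorem loc {h : ℕ → ℝ} (hΩ : IsOpen Ω) (hp : ∀ n, 0 < h n) (hh : Tendsto h atTop (𝓝 0))
    {u : ℕ → ℂ → ℝ} (hu : ∀ n, ContDiffOn ℝ ∞ (u n) Ω) (hM : MK2 Ω h 3 (cx u))
    {ρ : ℂ → ℝ} (hρ : ContDiffOn ℝ ∞ ρ Ω) (hρ0 : ∀ z ∈ Ω, 0 < ρ z)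
    (he : ∀ n, ∀ z ∈ Ω, rd h 1 (rd h 1 u) n z + rd h I (rd h I u) n z = -(ρ z * u n z))
    {φ : ℂ → ℝ} (hφ : TF Ω φ) (hφ0 : ∀ z, 0 ≤ φ z) :
    ∀ ε : ℝ, 0 < ε → ∀ᶠ n in atTop, ∫ z, φ z * (ρ z * |u n z|) ≤
      mm * √2 * (√(∫ z, φ z * ρ z) * √(∫ z, φ z * (ρ z * u n z ^ 2))) + ε := by
  intro ε hε
  obtain ⟨C, C0, hC⟩ := single hΩ hρ hρ0 hφ hφ0
  have hSc : IsCompact (tsupport φ) := hφ.2.1
  have hSB : tsupport φ ⊆ Ω := hφ.2.2
  obtain ⟨r1, r2⟩ := mk_rd hΩ hu hM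
  have s1 := rd_sm (h := h) hΩ hu 1
  have s2 := rd_sm (h := h) hΩ hu I
  obtain ⟨r11, r12⟩ := mk_rd hΩ s1 r1
  obtain ⟨r21, r22⟩ := mk_rd hΩ s2 r2
  obtain ⟨B0, B00, b0⟩ := lb_re hM.lb hSc hSB
  obtain ⟨B1, B10, b1⟩ := lb_re r1.lb hSc hSB
  obtain ⟨B2, B20, b2⟩ := lb_re r2.lb hSc hSB
  obtain ⟨B3, B30, b3⟩ := lb_re r11.lb hSc hSB
  obtain ⟨B4, B40, b4⟩ := lb_re r12.lb hSc hSB
  obtain ⟨B5, B50, b5⟩ := lb_re r22.lb hSc hSB
  obtain ⟨A, hA⟩ : ∃ A : ℝ, A = ∫ z in tsupport φ, (1 : ℝ) := ⟨_, rfl⟩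
  have A0 : 0 ≤ A := by rw [hA]; exact integral_nonneg fun z => zero_le_one
  obtain ⟨T, hT⟩ : ∃ T : ℝ, T = C * (A + B0 + B1 + B2 + B3 + B4 + B5) := ⟨_, rfl⟩
  have T0 : 0 ≤ T := by rw [hT]; positivity
  obtain ⟨J, hJ⟩ : ∃ J, J = √(∫ z, φ z * ρ z) := ⟨_, rfl⟩
  have J0 : 0 ≤ J := by rw [hJ]; exact Real.sqrt_nonneg _
  have lim : Tendsto (fun n => mm * (J * √(h n * T)) + h n * T) atTop (𝓝 0) := by
    have h1 : Tendsto (fun n => h n * T) atTop (𝓝 0) := by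
      have := hh.mul_const T
      rwa [zero_mul] at this
    have h2 : Tendsto (fun n => √(h n * T)) atTop (𝓝 0) := by
      have := (Real.continuous_sqrt.tendsto 0).comp h1
      rw [Real.sqrt_zero] at this
      exact this
    have h3 := ((h2.const_mul J).const_mul mm).add h1
    simpa using h3
  filter_upwards [b0, b1, b2, b3, b4, b5, lim.eventually (gt_mem_nhds hε)] with n b0 b1 b2 b3 b4 b5 hl
  have key := hC (h n) (u n) (hp n) (hu n) (fun z hz => he n z hz)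
  have cu : ContinuousOn (u n) (tsupport φ) := (hu n).continuousOn.mono hSB
  have q1 : IntegrableOn (fun z => u n z ^ 2) (tsupport φ) volume :=
    (cu.pow 2).integrableOn_compact hSc
  have q2 : IntegrableOn (fun z => rd h 1 u n z ^ 2) (tsupport φ) volume :=
    (((s1 n).continuousOn.mono hSB).pow 2).integrableOn_compact hSc
  have q3 : IntegrableOn (fun z => rd h I u n z ^ 2) (tsupport φ) volume :=
    (((s2 n).continuousOn.mono hSB).pow 2).integrableOn_compact hSc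
  have q4 : IntegrableOn (fun z => rd h 1 (rd h 1 u) n z ^ 2) (tsupport φ) volume :=
    (((rd_sm hΩ s1 1 n).continuousOn.mono hSB).pow 2).integrableOn_compact hSc
  have q5 : IntegrableOn (fun z => rd h I (rd h 1 u) n z ^ 2) (tsupport φ) volume :=
    (((rd_sm hΩ s1 I n).continuousOn.mono hSB).pow 2).integrableOn_compact hSc
  have q6 : IntegrableOn (fun z => rd h I (rd h I u) n z ^ 2) (tsupport φ) volume :=
    (((rd_sm hΩ s2 I n).continuousOn.mono hSB).pow 2).integrableOn_compact hSc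
  have q0 : IntegrableOn (fun _ : ℂ => (1 : ℝ)) (tsupport φ) volume :=
    continuousOn_const.integrableOn_compact hSc
  have Eb : C * ∫ z in tsupport φ, EE (h n) (u n) z ≤ T := by
    rw [hT]
    refine mul_le_mul_of_nonneg_left ?_ C0
    have e : ∫ z in tsupport φ, EE (h n) (u n) z =
        ∫ z in tsupport φ, (1 + u n z ^ 2 + rd h 1 u n z ^ 2 + rd h I u n z ^ 2 +
          rd h 1 (rd h 1 u) n z ^ 2 + rd h I (rd h 1 u) n z ^ 2 +
          rd h I (rd h I u) n z ^ 2) := rfl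
    rw [e]
    exact (sum_bd (sum_bd (sum_bd (sum_bd (sum_bd (sum_bd ⟨q0, hA.ge⟩ ⟨q1, b0⟩) ⟨q2, b1⟩)
      ⟨q3, b2⟩) ⟨q4, b3⟩) ⟨q5, b4⟩) ⟨q6, b5⟩).2
  have EE0 : 0 ≤ C * ∫ z in tsupport φ, EE (h n) (u n) z :=
    mul_nonneg C0 (integral_nonneg fun z => by unfold EE; positivity)
  have hT2 : h n * (C * ∫ z in tsupport φ, EE (h n) (u n) z) ≤ h n * T :=
    mul_le_mul_of_nonneg_left Eb (hp n).le
  obtain ⟨Q, hQ⟩ : ∃ Q, Q = ∫ z, φ z * (ρ z * u n z ^ 2) := ⟨_, rfl⟩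
  rw [← hQ, ← hJ] at key ⊢
  have m1 : √(2 * Q + h n * (C * ∫ z in tsupport φ, EE (h n) (u n) z)) ≤
      √2 * √Q + √(h n * T) := by
    have Q0 : 0 ≤ Q := by
      rw [hQ]
      refine integral_nonneg fun z => ?_
      show 0 ≤ φ z * (ρ z * u n z ^ 2)
      by_cases hz : z ∈ tsupport φ
      · have := hρ0 z (hSB hz)
        have := hφ0 z
        positivity
      · rw [image_eq_zero_of_notMem_tsupport hz, zero_mul]
    have hT0 : 0 ≤ h n * T := mul_nonneg (hp n).le T0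
    rw [← Real.sqrt_mul (by norm_num : (0 : ℝ) ≤ 2)]
    refine Real.sqrt_le_iff.2 ⟨by positivity, ?_⟩
    have h1 := Real.sq_sqrt (by positivity : 0 ≤ 2 * Q)
    have h2 := Real.sq_sqrt hT0
    have h3 : 0 ≤ √(2 * Q) * √(h n * T) := by positivity
    rw [add_sq, h1, h2]
    linarith
  have m2 := mul_le_mul_of_nonneg_left (mul_le_mul_of_nonneg_left m1 J0) mm_pos.le
  have e3 : mm * √2 * (J * √Q) + mm * (J * √(h n * T)) = mm * (J * (√2 * √Q + √(h n * T))) := by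
    ring
  linarith

end

end Pool.Agent.Helper61A.PW
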