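import Mathlib

/-!
Project PW (helper61): the one-variable functions of the sharp comparison of `L¹` and `L²`
norms of eigenfunctions.
-/

set_option autoImplicit false
open Filter Topology Set

namespace Pool.Agent.Helper61A.PW

noncomputable section

/-- `2/π` -/
def mm : ℝ := 2 / Real.pi

/-- `arccos x / √(1-x²)` -/
def S (x : ℝ) : ℝ := Real.arccos x / √(1 - x ^ 2)

/-- the derivative of `S` -/
def S1 (x : ℝ) : ℝ := (x * S x - 1) / (1 - x ^ 2)

lemma mm_pos : 0 < mm := by unfold mm; positivity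

lemma mm_lt : mm < 2 / 3 := by
  unfold mm
  rw [div_lt_div_iff₀ Real.pi_pos (by norm_num)]
  have := Real.pi_gt_three
  linarith

lemma one_sub_sq {x : ℝ} (hx : x ∈ Ioo (-1 : ℝ) 1) : 0 < 1 - x ^ 2 := by
  nlinarith [hx.1, hx.2]

lemma S_d {x : ℝ} (hx : x ∈ Ioo (-1 : ℝ) 1) : HasDerivAt S (S1 x) x := by
  have h0 := one_sub_sq hx
  have hs : 0 < √(1 - x ^ 2) := Real.sqrt_pos.2 h0
  have h1 : HasDerivAt Real.arccos (-(1 / √(1 - x ^ 2))) x :=
    Real.hasDerivAt_arccos (ne_of_gt hx.1) (ne_of_lt hx.2)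
  have h2 : HasDerivAt (fun x : ℝ => 1 - x ^ 2) (-(2 * x)) x := by
    have := ((hasDerivAt_id x).pow 2).const_sub 1
    refine this.congr_deriv ?_
    simp
  have h3 : HasDerivAt (fun x : ℝ => √(1 - x ^ 2)) (-(2 * x) / (2 * √(1 - x ^ 2))) x :=
    h2.sqrt h0.ne'
  have h4 := h1.div h3 hs.ne'
  refine h4.congr_deriv ?_
  unfold S1 S
  have e : √(1 - x ^ 2) ^ 2 = 1 - x ^ 2 := Real.sq_sqrt h0.le
  rw [e]
  congr 1
  field_simp
  ring

lemma S_bd {x : ℝ} (h0 : 0 ≤ x) (h1 : x < 1) : 1 ≤ S x ∧ S x ≤ Real.pi / 2 ∧ x * S x ≤ 1 := by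
  obtain ⟨t, ht⟩ : ∃ t, t = Real.arccos x := ⟨_, rfl⟩
  have t1 : x = Real.cos t := by rw [ht, Real.cos_arccos (by linarith) h1.le]
  have t2 : √(1 - x ^ 2) = Real.sin t := by rw [ht, Real.sin_arccos]
  have t0 : 0 < t := by rw [ht]; exact Real.arccos_pos.2 h1
  have t3 : t ≤ Real.pi / 2 := by rw [ht]; exact Real.arccos_le_pi_div_two.2 h0
  have s0 : 0 < Real.sin t := Real.sin_pos_of_pos_of_lt_pi t0 (by linarith [Real.pi_pos])
  unfold S
  rw [t2, ← ht]
  refine ⟨?_, ?_, ?_⟩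
  · rw [le_div_iff₀ s0, one_mul]; exact Real.sin_le t0.le
  · rw [div_le_iff₀ s0]
    have := Real.mul_le_sin t0.le t3
    have hp := Real.pi_pos
    calc t = Real.pi / 2 * (2 / Real.pi * t) := by field_simp
      _ ≤ Real.pi / 2 * Real.sin t := by gcongr
  · rw [← mul_div_assoc, div_le_one s0, t1]
    rcases eq_or_lt_of_le t3 with h | h
    · rw [h]; simp
    · have c0 : 0 < Real.cos t := Real.cos_pos_of_mem_Ioo ⟨by linarith, h⟩
      have := Real.le_tan t0.le h
      rw [Real.tan_eq_sin_div_cos, le_div_iff₀ c0] at this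
      linarith

/-- odd extension -/
lemma glue_odd {f f' : ℝ → ℝ} (hf : ∀ x ∈ Ioo (-1 : ℝ) 1, HasDerivAt f (f' x) x) (h0 : f 0 = 0)
    {x : ℝ} (hx : x ∈ Ioo (-1 : ℝ) 1) :
    HasDerivAt (fun x => if 0 ≤ x then f x else - f (-x)) (f' |x|) x := by
  have hneg : ∀ x ∈ Ioo (-1 : ℝ) 1, HasDerivAt (fun y => - f (-y)) (f' (-x)) x := by
    intro x hx
    have h1 : HasDerivAt f (f' (-x)) (-x) := hf (-x) ⟨by linarith [hx.2], by linarith [hx.1]⟩
    have h2 := (h1.scomp x (hasDerivAt_neg x)).neg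
    refine h2.congr_deriv ?_
    simp
  rcases lt_trichotomy x 0 with h | h | h
  · rw [abs_of_neg h]
    refine (hneg x hx).congr_of_eventuallyEq ?_
    filter_upwards [gt_mem_nhds h] with y hy
    rw [if_neg (not_le.2 hy)]
  · subst h
    rw [abs_zero]
    have a1 : HasDerivWithinAt (fun x => if 0 ≤ x then f x else - f (-x)) (f' 0) (Ici 0) 0 := by
      refine ((hf 0 hx).hasDerivWithinAt).congr (fun y hy => ?_) ?_
      · rw [if_pos (mem_Ici.1 hy)]
      · rw [if_pos le_rfl]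
    have a2 : HasDerivWithinAt (fun x => if 0 ≤ x then f x else - f (-x)) (f' 0) (Iic 0) 0 := by
      have := (hneg 0 hx).hasDerivWithinAt (s := Iic 0)
      rw [neg_zero] at this
      refine this.congr (fun y hy => ?_) ?_
      · rcases eq_or_lt_of_le (mem_Iic.1 hy) with h | h
        · subst h; simp [h0]
        · rw [if_neg (not_le.2 h)]
      · simp [h0]
    have a3 := a1.union a2
    rw [show Ici (0 : ℝ) ∪ Iic 0 = univ by ext y; simp] at a3
    exact hasDerivWithinAt_univ.1 a3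
  · rw [abs_of_pos h]
    refine (hf x hx).congr_of_eventuallyEq ?_
    filter_upwards [lt_mem_nhds h] with y hy
    rw [if_pos hy.le]

/-- even extension -/
lemma glue_even {f f' : ℝ → ℝ} (hf : ∀ x ∈ Ioo (-1 : ℝ) 1, HasDerivAt f (f' x) x)
    (h0 : f' 0 = 0) {x : ℝ} (hx : x ∈ Ioo (-1 : ℝ) 1) :
    HasDerivAt (fun x => f |x|) (if 0 ≤ x then f' x else - f' (-x)) x := by
  have hneg : ∀ x ∈ Ioo (-1 : ℝ) 1, HasDerivAt (fun y => f (-y)) (- f' (-x)) x := by
    intro x hx
    have h1 : HasDerivAt f (f' (-x)) (-x) := hf (-x) ⟨by linarith [hx.2], by linarith [hx.1]⟩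
    have h2 := (h1.scomp x (hasDerivAt_neg x))
    refine h2.congr_deriv ?_
    simp
  rcases lt_trichotomy x 0 with h | h | h
  · rw [if_neg (not_le.2 h)]
    refine (hneg x hx).congr_of_eventuallyEq ?_
    filter_upwards [gt_mem_nhds h] with y hy
    rw [abs_of_neg hy]
  · subst h
    rw [if_pos le_rfl, h0]
    have a1 : HasDerivWithinAt (fun x => f |x|) 0 (Ici 0) 0 := by
      have := ((hf 0 hx).hasDerivWithinAt (s := Ici 0))
      rw [h0] at this
      refine this.congr (fun y hy => ?_) ?_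
      · rw [abs_of_nonneg hy]
      · rw [abs_zero]
    have a2 : HasDerivWithinAt (fun x => f |x|) 0 (Iic 0) 0 := by
      have := (hneg 0 hx).hasDerivWithinAt (s := Iic 0)
      rw [neg_zero, h0, neg_zero] at this
      refine this.congr (fun y hy => ?_) ?_
      · rw [abs_of_nonpos hy]
      · simp
    have a3 := a1.union a2
    rw [show Ici (0 : ℝ) ∪ Iic 0 = univ by ext y; simp] at a3
    exact hasDerivWithinAt_univ.1 a3
  · rw [if_pos h.le]
    refine (hf x hx).congr_of_eventuallyEq ?_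
    filter_upwards [lt_mem_nhds h] with y hy
    rw [abs_of_pos hy]

/-- `sgn x (1 - m S(|x|))` -/
def et (x : ℝ) : ℝ := if 0 ≤ x then 1 - mm * S x else -(1 - mm * S (-x))

/-- its derivative -/
def ed (x : ℝ) : ℝ := - mm * S1 |x|

/-- the function `k₁` -/
def ka (x : ℝ) : ℝ := (3 - S |x| ^ 2 - 2 * S |x| * |x|) / (2 * Real.pi)

/-- its derivative -/
def kd (x : ℝ) : ℝ := 2 * x * ka x / (1 - x ^ 2) - x * ed x

lemma S_zero : S 0 = Real.pi / 2 := by unfold S; simp

lemma abs_mem {x : ℝ} (hx : x ∈ Ioo (-1 : ℝ) 1) : |x| ∈ Ioo (-1 : ℝ) 1 :=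
  ⟨by linarith [abs_nonneg x], abs_lt.2 hx⟩

lemma et_d {x : ℝ} (hx : x ∈ Ioo (-1 : ℝ) 1) : HasDerivAt et (ed x) x := by
  refine glue_odd (f := fun x => 1 - mm * S x) (f' := fun x => - mm * S1 x) (fun y hy => ?_) ?_ hx
  · have := ((S_d hy).const_mul mm).const_sub 1
    refine this.congr_deriv ?_
    ring
  · show 1 - mm * S 0 = 0
    rw [S_zero, mm]
    have := Real.pi_ne_zero
    field_simp
    ring

lemma ka_d {x : ℝ} (hx : x ∈ Ioo (-1 : ℝ) 1) : HasDerivAt ka (kd x) x := by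
  have hp := Real.pi_ne_zero
  have h := glue_even (f := fun x => (3 - S x ^ 2 - 2 * S x * x) / (2 * Real.pi))
    (f' := fun x => -(S x * S1 x + x * S1 x + S x) / Real.pi) (fun y hy => ?_) ?_ hx
  · refine h.congr_deriv ?_
    have h0 := one_sub_sq hx
    unfold kd ed ka
    split_ifs with hc
    · rw [abs_of_nonneg hc]
      unfold S1 mm
      field_simp
      ring
    · rw [abs_of_neg (not_le.1 hc)]
      have e : (1 - (-x) ^ 2) = 1 - x ^ 2 := by ring
      unfold S1 mm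
      rw [e]
      field_simp
      ring
  · have h1 := S_d hy
    have h2 := (((h1.pow 2).const_sub 3).sub ((h1.const_mul 2).mul (hasDerivAt_id y))).div_const
      (2 * Real.pi)
    refine h2.congr_deriv ?_
    simp only [id]
    field_simp
    ring
  · show -(S 0 * S1 0 + 0 * S1 0 + S 0) / Real.pi = 0
    have : S1 0 = -1 := by unfold S1; simp
    rw [this]; ring

lemma R2 {x : ℝ} (hx : x ∈ Ioo (-1 : ℝ) 1) : (1 - x ^ 2) * ed x - x * et x = mm - |x| := by
  have h0 := one_sub_sq hx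
  unfold ed et S1
  rw [sq_abs]
  split_ifs with hc
  · rw [abs_of_nonneg hc]
    field_simp
    ring
  · rw [abs_of_neg (not_le.1 hc)]
    field_simp
    ring

lemma R1 {x : ℝ} (hx : x ∈ Ioo (-1 : ℝ) 1) :
    (1 - x ^ 2) * (kd x + x * ed x) = 2 * x * ka x := by
  have h0 := one_sub_sq hx
  unfold kd
  field_simp
  ring

lemma ed_bd {x : ℝ} (hx : x ∈ Ioo (-1 : ℝ) 1) : 0 ≤ ed x ∧ ed x ≤ mm := by
  have ha := abs_mem hx
  have h0 := one_sub_sq ha
  obtain ⟨b1, b2, b3⟩ := S_bd (abs_nonneg x) ha.2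
  have h1 : S1 |x| ≤ 0 := by
    unfold S1
    exact div_nonpos_of_nonpos_of_nonneg (by linarith) h0.le
  have h2 : -1 ≤ S1 |x| := by
    unfold S1
    rw [le_div_iff₀ h0]
    nlinarith [abs_nonneg x, ha.2]
  have := mm_pos
  unfold ed
  constructor <;> nlinarith

lemma et_bd {x : ℝ} (hx : x ∈ Ioo (-1 : ℝ) 1) : |et x| ≤ 1 := by
  have key : ∀ y, 0 ≤ y → y < 1 → |1 - mm * S y| ≤ 1 := by
    intro y h0 h1
    obtain ⟨b1, b2, b3⟩ := S_bd h0 h1
    have := mm_pos
    have e : mm * (Real.pi / 2) = 1 := by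
      unfold mm
      have := Real.pi_ne_zero
      field_simp
    rw [abs_le]
    constructor <;> nlinarith
  unfold et
  split_ifs with hc
  · exact key x hc hx.2
  · rw [abs_neg]
    exact key (-x) (by linarith) (by linarith [hx.1])

/-- the function `K(θ)` -/
lemma K_bd {t : ℝ} (h0 : 0 ≤ t) (h1 : t ≤ Real.pi / 2) :
    0 ≤ 3 * Real.sin t ^ 2 - t ^ 2 - 2 * t * Real.sin t * Real.cos t ∧
    3 * Real.sin t ^ 2 - t ^ 2 - 2 * t * Real.sin t * Real.cos t ≤ Real.sin t ^ 4 := by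
  have hd : ∀ t : ℝ, HasDerivAt
      (fun t => 3 * Real.sin t ^ 2 - t ^ 2 - 2 * t * Real.sin t * Real.cos t)
      (4 * Real.cos t * (Real.sin t - t * Real.cos t)) t := by
    intro t
    have a1 := ((Real.hasDerivAt_sin t).pow 2).const_mul 3
    have a2 := (hasDerivAt_id t).pow 2
    have a3 := (((hasDerivAt_id t).const_mul 2).mul (Real.hasDerivAt_sin t)).mul
      (Real.hasDerivAt_cos t)
    refine ((a1.sub a2).sub a3).congr_deriv ?_
    simp only [id]
    have := Real.sin_sq_add_cos_sq t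
    push_cast
    simp only [pow_one, mul_one, Pi.mul_apply]
    linear_combination (2 * t) * this
  have hd2 : ∀ t : ℝ, HasDerivAt (fun t => Real.sin t ^ 4)
      (4 * Real.sin t ^ 3 * Real.cos t) t := by
    intro t
    refine ((Real.hasDerivAt_sin t).pow 4).congr_deriv ?_
    push_cast; ring
  have hc : ∀ s ∈ Icc 0 (Real.pi / 2), 0 ≤ Real.cos s := fun s hs =>
    Real.cos_nonneg_of_mem_Icc ⟨by linarith [hs.1, Real.pi_pos], hs.2⟩
  have ht : ∀ s ∈ Icc 0 (Real.pi / 2), s * Real.cos s ≤ Real.sin s := by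
    intro s hs
    rcases eq_or_lt_of_le hs.2 with h | h
    · rw [h]; simp
    · have c0 : 0 < Real.cos s := Real.cos_pos_of_mem_Ioo ⟨by linarith [hs.1, Real.pi_pos], h⟩
      have := Real.le_tan hs.1 h
      rw [Real.tan_eq_sin_div_cos, le_div_iff₀ c0] at this
      exact this
  have m1 : MonotoneOn (fun t => 3 * Real.sin t ^ 2 - t ^ 2 - 2 * t * Real.sin t * Real.cos t)
      (Icc 0 (Real.pi / 2)) := by
    refine monotoneOn_of_deriv_nonneg (convex_Icc _ _)
      (fun s _ => (hd s).continuousAt.continuousWithinAt)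
      (fun s _ => (hd s).differentiableAt.differentiableWithinAt) fun s hs => ?_
    rw [(hd s).deriv]
    have hs' := interior_subset hs
    have := hc s hs'
    have := ht s hs'
    have h3 : 0 ≤ Real.sin s - s * Real.cos s := by linarith
    positivity
  have m2 : MonotoneOn (fun t => Real.sin t ^ 4 -
      (3 * Real.sin t ^ 2 - t ^ 2 - 2 * t * Real.sin t * Real.cos t))
      (Icc 0 (Real.pi / 2)) := by
    refine monotoneOn_of_deriv_nonneg (convex_Icc _ _)
      (fun s _ => ((hd2 s).sub (hd s)).continuousAt.continuousWithinAt)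
      (fun s _ => ((hd2 s).sub (hd s)).differentiableAt.differentiableWithinAt) fun s hs => ?_
    have hds : HasDerivAt (fun t => Real.sin t ^ 4 -
        (3 * Real.sin t ^ 2 - t ^ 2 - 2 * t * Real.sin t * Real.cos t))
        (4 * Real.sin s ^ 3 * Real.cos s - 4 * Real.cos s * (Real.sin s - s * Real.cos s)) s :=
      (hd2 s).sub (hd s)
    rw [hds.deriv]
    have hs' := interior_subset hs
    have c0 := hc s hs'
    have s1 : Real.sin s ≤ s := Real.sin_le hs'.1
    have s0 : 0 ≤ Real.sin s :=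
      Real.sin_nonneg_of_nonneg_of_le_pi hs'.1 (by linarith [hs'.2, Real.pi_pos])
    have e : 4 * Real.sin s ^ 3 * Real.cos s - 4 * Real.cos s * (Real.sin s - s * Real.cos s) =
        4 * Real.cos s ^ 2 * (s - Real.sin s * Real.cos s) := by
      have h4 := Real.sin_sq_add_cos_sq s
      have h5 : Real.sin s ^ 3 = Real.sin s * (1 - Real.cos s ^ 2) := by
        rw [← h4]; ring
      rw [h5]; ring
    rw [e]
    have h6 : Real.sin s * Real.cos s ≤ s := by
      have := Real.cos_le_one s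
      nlinarith
    have h7 : 0 ≤ s - Real.sin s * Real.cos s := by linarith
    positivity
  have z0 : (0 : ℝ) ∈ Icc 0 (Real.pi / 2) := ⟨le_rfl, by positivity⟩
  have k1 := m1 z0 ⟨h0, h1⟩ h0
  have k2 := m2 z0 ⟨h0, h1⟩ h0
  simp at k1 k2
  constructor <;> linarith

lemma ka_bd {x : ℝ} (hx : x ∈ Ioo (-1 : ℝ) 1) : 0 ≤ ka x ∧ ka x ≤ mm / 4 * (1 - x ^ 2) := by
  have ha := abs_mem hx
  have h0 := one_sub_sq hx
  have hp := Real.pi_pos
  obtain ⟨y, hy⟩ : ∃ y, y = |x| := ⟨_, rfl⟩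
  have hy2 : x ^ 2 = y ^ 2 := by rw [hy, sq_abs]
  have y0 : 0 ≤ y := by rw [hy]; exact abs_nonneg x
  obtain ⟨t, ht⟩ : ∃ t, t = Real.arccos y := ⟨_, rfl⟩
  rw [← hy] at ha
  rw [hy2] at h0 ⊢
  have t1 : Real.cos t = y := by rw [ht, Real.cos_arccos ha.1.le ha.2.le]
  have t2 : Real.sin t = √(1 - y ^ 2) := by rw [ht, Real.sin_arccos]
  have t3 : 0 ≤ t := by rw [ht]; exact Real.arccos_nonneg y
  have t4 : t ≤ Real.pi / 2 := by rw [ht]; exact Real.arccos_le_pi_div_two.2 y0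
  obtain ⟨b1, b2⟩ := K_bd t3 t4
  have hs : 0 < √(1 - y ^ 2) := Real.sqrt_pos.2 h0
  have e2 : √(1 - y ^ 2) ^ 2 = 1 - y ^ 2 := Real.sq_sqrt h0.le
  have e : ka x = (3 * Real.sin t ^ 2 - t ^ 2 - 2 * t * Real.sin t * Real.cos t) /
      (2 * Real.pi * (1 - y ^ 2)) := by
    unfold ka S
    rw [← hy, ← ht, t2, t1]
    generalize √(1 - y ^ 2) = r at hs e2
    rw [← e2]
    field_simp
  rw [e]
  have e4 : Real.sin t ^ 4 = (1 - y ^ 2) ^ 2 := by
    rw [t2]
    generalize √(1 - y ^ 2) = r at hs e2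
    rw [← e2]; ring
  rw [e4] at b2
  refine ⟨by positivity, ?_⟩
  rw [div_le_iff₀ (by positivity)]
  unfold mm
  have : 2 / Real.pi / 4 * (1 - y ^ 2) * (2 * Real.pi * (1 - y ^ 2)) = (1 - y ^ 2) ^ 2 := by
    field_simp
    ring
  rw [this]; exact b2

lemma ka_le {x : ℝ} (hx : x ∈ Ioo (-1 : ℝ) 1) : |ka x| ≤ 1 := by
  obtain ⟨a, b⟩ := ka_bd hx
  rw [abs_of_nonneg a]
  have h0 := one_sub_sq hx
  have := mm_lt
  have := mm_pos
  nlinarith [sq_nonneg x]

lemma kd_bd {x : ℝ} (hx : x ∈ Ioo (-1 : ℝ) 1) : |kd x| ≤ 1 := by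
  obtain ⟨a, b⟩ := ka_bd hx
  obtain ⟨c, d⟩ := ed_bd hx
  have h0 := one_sub_sq hx
  have m1 := mm_lt
  have m0 := mm_pos
  have ax : |x| ≤ 1 := (abs_lt.2 hx).le
  have e1 : |2 * x * ka x / (1 - x ^ 2)| ≤ mm / 2 := by
    rw [abs_div, abs_of_pos h0, div_le_iff₀ h0, abs_mul, abs_mul, abs_of_nonneg a,
      abs_of_pos (by norm_num : (0 : ℝ) < 2)]
    nlinarith [abs_nonneg x, mul_nonneg (abs_nonneg x) a]
  have e2 : |x * ed x| ≤ mm := by
    rw [abs_mul, abs_of_nonneg c]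
    nlinarith [abs_nonneg x]
  have := abs_sub (2 * x * ka x / (1 - x ^ 2)) (x * ed x)
  unfold kd
  linarith

lemma S_c : ContinuousOn S (Ioo (-1 : ℝ) 1) := fun _ hx =>
  (S_d hx).continuousAt.continuousWithinAt

lemma et_c : ContinuousOn et (Ioo (-1 : ℝ) 1) := fun _ hx =>
  (et_d hx).continuousAt.continuousWithinAt

lemma ka_c : ContinuousOn ka (Ioo (-1 : ℝ) 1) := fun _ hx =>
  (ka_d hx).continuousAt.continuousWithinAt

lemma ed_c : ContinuousOn ed (Ioo (-1 : ℝ) 1) := by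
  have h1 : ContinuousOn S1 (Ioo (-1 : ℝ) 1) := by
    unfold S1
    refine ((continuousOn_id.mul S_c).sub continuousOn_const).div
      (continuousOn_const.sub (continuousOn_id.pow 2)) fun x hx => ?_
    exact (one_sub_sq hx).ne'
  unfold ed
  exact continuousOn_const.mul (h1.comp continuous_abs.continuousOn fun x hx => abs_mem hx)

lemma kd_c : ContinuousOn kd (Ioo (-1 : ℝ) 1) := by
  unfold kd
  refine ((((continuousOn_const.mul continuousOn_id).mul ka_c).div
      (continuousOn_const.sub (continuousOn_id.pow 2)) fun x hx => ?_)).sub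
      (continuousOn_id.mul ed_c)
  exact (one_sub_sq hx).ne'

end

end Pool.Agent.Helper61A.PW
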