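import Mathlib

/-!
Project PW (helper61): plane waves on the unit square.
-/

set_option autoImplicit false
open MeasureTheory Filter Topology Complex Set
open scoped ContDiff ENNReal

namespace Pool.Agent.Helper61A.PW

noncomputable section

/-- the open unit square -/
def Q : Set ℂ := Ioo (0 : ℝ) 1 ×ℂ Ioo (0 : ℝ) 1

lemma Q_open : IsOpen Q := isOpen_Ioo.reProdIm isOpen_Ioo

lemma int_Q (f : ℝ → ℝ) : ∫ z in Q, f z.re = ∫ x in (0 : ℝ)..1, f x := by
  have h1 := Complex.volume_preserving_equiv_real_prod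
  have h2 := h1.setIntegral_preimage_emb Complex.measurableEquivRealProd.measurableEmbedding
    (fun p : ℝ × ℝ => f p.1) (Ioo (0 : ℝ) 1 ×ˢ Ioo (0 : ℝ) 1)
  have e : Complex.measurableEquivRealProd ⁻¹' (Ioo (0 : ℝ) 1 ×ˢ Ioo (0 : ℝ) 1) = Q := by
    ext z
    simp [Q, Complex.mem_reProdIm, Complex.measurableEquivRealProd_apply]
  rw [e] at h2
  have h3 : ∫ z in Q, f z.re = ∫ z in Q, f (Complex.measurableEquivRealProd z).1 := rfl
  rw [h3, h2, Measure.volume_eq_prod, ← Measure.prod_restrict]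
  have h4 := integral_prod_mul (μ := (volume : Measure ℝ).restrict (Ioo 0 1))
    (ν := (volume : Measure ℝ).restrict (Ioo 0 1)) f (fun _ => (1 : ℝ))
  simp only [mul_one] at h4
  rw [h4, intervalIntegral.integral_of_le zero_le_one, integral_Ioc_eq_integral_Ioo]
  simp

lemma vol_Q : volume Q = 1 := by
  have h1 := Complex.volume_preserving_equiv_real_prod
  have e : Complex.measurableEquivRealProd ⁻¹' (Ioo (0 : ℝ) 1 ×ˢ Ioo (0 : ℝ) 1) = Q := by
    ext z
    simp [Q, Complex.mem_reProdIm, Complex.measurableEquivRealProd_apply]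
  rw [← e, h1.measure_preimage (measurableSet_Ioo.prod measurableSet_Ioo).nullMeasurableSet,
    Measure.volume_eq_prod, Measure.prod_prod]
  simp

lemma abs_cos_per : Function.Periodic (fun x : ℝ => |Real.cos x|) Real.pi := by
  intro x
  show |Real.cos (x + Real.pi)| = |Real.cos x|
  rw [Real.cos_add_pi, abs_neg]

lemma int_abs_cos_pi : ∫ x in (0 : ℝ)..Real.pi, |Real.cos x| = 2 := by
  have hp := Real.pi_pos
  have hc : ∀ a b : ℝ, IntervalIntegrable (fun x : ℝ => |Real.cos x|) volume a b := fun a b =>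
    (Real.continuous_cos.abs).intervalIntegrable a b
  rw [← intervalIntegral.integral_add_adjacent_intervals (hc 0 (Real.pi / 2))
    (hc (Real.pi / 2) Real.pi)]
  have h1 : ∫ x in (0 : ℝ)..(Real.pi / 2), |Real.cos x| = 1 := by
    have : ∫ x in (0 : ℝ)..(Real.pi / 2), |Real.cos x| =
        ∫ x in (0 : ℝ)..(Real.pi / 2), Real.cos x := by
      refine intervalIntegral.integral_congr fun x hx => ?_
      rw [uIcc_of_le (by positivity)] at hx
      exact abs_of_nonneg (Real.cos_nonneg_of_mem_Icc ⟨by linarith [hx.1], hx.2⟩)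
    rw [this, integral_cos, Real.sin_pi_div_two, Real.sin_zero, sub_zero]
  have h2 : ∫ x in (Real.pi / 2)..Real.pi, |Real.cos x| = 1 := by
    have : ∫ x in (Real.pi / 2)..Real.pi, |Real.cos x| =
        ∫ x in (Real.pi / 2)..Real.pi, -Real.cos x := by
      refine intervalIntegral.integral_congr fun x hx => ?_
      rw [uIcc_of_le (by linarith)] at hx
      exact abs_of_nonpos (Real.cos_nonpos_of_pi_div_two_le_of_le hx.1 (by linarith [hx.2]))
    rw [this, intervalIntegral.integral_neg, integral_cos, Real.sin_pi, Real.sin_pi_div_two]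
    norm_num
  rw [h1, h2]; norm_num

lemma int_abs_cos (n : ℕ) : ∫ x in (0 : ℝ)..1, |Real.cos (((n : ℝ) + 1) * Real.pi * x)| =
    2 / Real.pi := by
  have hp := Real.pi_pos
  have hk : ((n : ℝ) + 1) * Real.pi ≠ 0 := by positivity
  rw [intervalIntegral.integral_comp_mul_left (fun x => |Real.cos x|) hk, mul_zero, mul_one]
  have h1 := abs_cos_per.intervalIntegral_add_zsmul_eq ((n : ℤ) + 1) 0 (fun a b =>
    (Real.continuous_cos.abs).intervalIntegrable a b)
  have e1 : (0 : ℝ) + ((n : ℤ) + 1) • Real.pi = ((n : ℝ) + 1) * Real.pi := by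
    rw [zero_add, zsmul_eq_mul]; push_cast; ring
  rw [e1, zero_add, int_abs_cos_pi] at h1
  rw [h1]
  simp only [zsmul_eq_mul, smul_eq_mul]
  push_cast
  field_simp

lemma int_cos_sq' (n : ℕ) : ∫ x in (0 : ℝ)..1, Real.cos (((n : ℝ) + 1) * Real.pi * x) ^ 2 =
    1 / 2 := by
  have hp := Real.pi_pos
  have hk : ((n : ℝ) + 1) * Real.pi ≠ 0 := by positivity
  rw [intervalIntegral.integral_comp_mul_left (fun x => Real.cos x ^ 2) hk, mul_zero, mul_one,
    integral_cos_sq]
  have e1 : Real.sin (((n : ℝ) + 1) * Real.pi) = 0 := by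
    have := Real.sin_nat_mul_pi (n + 1)
    push_cast at this
    exact this
  rw [e1, Real.sin_zero, smul_eq_mul]
  field_simp
  ring

lemma cos_fd (k : ℝ) (z : ℂ) : HasFDerivAt (fun z : ℂ => Real.cos (k * z.re))
    ((-Real.sin (k * z.re) * k) • (Complex.reCLM : ℂ →L[ℝ] ℝ)) z := by
  have h1 : HasFDerivAt (fun z : ℂ => z.re) (Complex.reCLM : ℂ →L[ℝ] ℝ) z :=
    Complex.reCLM.hasFDerivAt
  have h2 : HasDerivAt (fun x : ℝ => Real.cos (k * x)) (-Real.sin (k * z.re) * k) z.re := by
    have := ((hasDerivAt_id z.re).const_mul k).cos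
    simpa using this
  exact h2.comp_hasFDerivAt z h1

lemma sin_fd (k : ℝ) (z : ℂ) : HasFDerivAt (fun z : ℂ => -Real.sin (k * z.re) * k)
    ((-(Real.cos (k * z.re) * k) * k) • (Complex.reCLM : ℂ →L[ℝ] ℝ)) z := by
  have h1 : HasFDerivAt (fun z : ℂ => z.re) (Complex.reCLM : ℂ →L[ℝ] ℝ) z :=
    Complex.reCLM.hasFDerivAt
  have h2 : HasDerivAt (fun x : ℝ => -Real.sin (k * x) * k) (-(Real.cos (k * z.re) * k) * k)
      z.re := by
    have := ((((hasDerivAt_id z.re).const_mul k).sin).neg).mul_const k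
    simpa using this
  exact h2.comp_hasFDerivAt z h1

lemma cos_lap (k : ℝ) (z : ℂ) :
    fderiv ℝ (fun w => fderiv ℝ (fun z : ℂ => Real.cos (k * z.re)) w 1) z 1 +
    fderiv ℝ (fun w => fderiv ℝ (fun z : ℂ => Real.cos (k * z.re)) w I) z I =
      - k ^ 2 * Real.cos (k * z.re) := by
  have e1 : (fun w => fderiv ℝ (fun z : ℂ => Real.cos (k * z.re)) w 1) =
      fun w : ℂ => -Real.sin (k * w.re) * k := by
    funext w
    rw [(cos_fd k w).fderiv]
    simp
  have e2 : (fun w => fderiv ℝ (fun z : ℂ => Real.cos (k * z.re)) w I) = fun _ : ℂ => (0 : ℝ) := by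
    funext w
    rw [(cos_fd k w).fderiv]
    simp
  rw [e1, e2, (sin_fd k z).fderiv]
  simp
  ring

lemma cos_sm (k : ℝ) : ContDiff ℝ ∞ (fun z : ℂ => Real.cos (k * z.re)) :=
  Real.contDiff_cos.comp (contDiff_const.mul Complex.reCLM.contDiff)

end

end Pool.Agent.Helper61A.PW
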