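import Pool.Agent.Helper61A.PW.Int

/-!
Project PW (helper61): the integrated inequality, continued.
-/

set_option autoImplicit false
open MeasureTheory Filter Topology Complex
open scoped ContDiff ENNReal

namespace Pool.Agent.Helper61A.PW

open Pool.Agent.W745.RW Pool.Agent.TH294.RS Pool.Agent.TH294.RG Pool.Agent.TH421.DF
  Pool.Agent.TH421.AC

noncomputable section

variable {Ω : Set ℂ}

lemma Rf_cd {η : ℝ} (hη : 0 < η) {u p q a : ℂ → ℝ} (hu : ContDiffOn ℝ 1 u Ω)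
    (hp : ContDiffOn ℝ 1 p Ω) (hq : ContDiffOn ℝ 1 q Ω) (ha : ContDiffOn ℝ 1 a Ω)
    (a0 : ∀ z ∈ Ω, 0 < a z) : ContDiffOn ℝ 1 (Rf η u p q a) Ω := by
  unfold Rf
  refine ContDiffOn.sqrt (((hu.pow 2).add (ha.mul ((hp.pow 2).add (hq.pow 2)))).add
    contDiffOn_const) fun z hz => ?_
  have := a0 z hz
  positivity

lemma Vf_cd {η : ℝ} (hη : 0 < η) {u p q a r W : ℂ → ℝ} (hu : ContDiffOn ℝ 1 u Ω)
    (hp : ContDiffOn ℝ 1 p Ω) (hq : ContDiffOn ℝ 1 q Ω) (ha : ContDiffOn ℝ 1 a Ω)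
    (a0 : ∀ z ∈ Ω, 0 < a z) (hr : ContDiffOn ℝ 1 r Ω) (hW : ContDiffOn ℝ 1 W Ω) :
    ContDiffOn ℝ 1 (Vf η u p q a r W) Ω := by
  have h1 := Rf_cd hη hu hp hq ha a0
  have h2 : ContDiffOn ℝ 1 (fun w => (Rf η u p q a w)⁻¹) Ω :=
    h1.inv fun z hz => (Rf_pos hη (a0 z hz)).ne'
  have h3 : ContDiffOn ℝ 1 (Xi η u p q a) Ω := hu.mul h2
  have h4 : Set.MapsTo (Xi η u p q a) Ω (Set.Ioo (-1) 1) := fun z hz => Xi_mem hη (a0 z hz)
  have h5 : ContDiffOn ℝ 1 (fun w => et (Xi η u p q a w)) Ω := et_cd.comp h3 h4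
  have h6 : ContDiffOn ℝ 1 (fun w => ka (Xi η u p q a w)) Ω := ka_cd.comp h3 h4
  exact (h5.mul hr).sub ((h6.mul h2).mul (ha.mul hW))

lemma pq_bd {u p q a ρ R η : ℝ} (ha : 0 < a) (hρ : 0 < ρ) (har : a * ρ = 1) (hR : 0 < R)
    (hR2 : R ^ 2 = u ^ 2 + a * (p ^ 2 + q ^ 2) + η ^ 2) :
    |p| ≤ (1 + ρ) * R ∧ |q| ≤ (1 + ρ) * R := by
  have G : a * (p ^ 2 + q ^ 2) ≤ R ^ 2 := by rw [hR2]; linarith [sq_nonneg u, sq_nonneg η]
  have gR : p ^ 2 + q ^ 2 ≤ ρ * R ^ 2 := by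
    calc p ^ 2 + q ^ 2 = ρ * (a * (p ^ 2 + q ^ 2)) := by
          rw [← mul_assoc, mul_comm ρ a, har, one_mul]
      _ ≤ ρ * R ^ 2 := by gcongr
  have eR : ((1 + ρ) * R) ^ 2 = ρ * R ^ 2 + (1 + ρ + ρ ^ 2) * R ^ 2 := by ring
  have eR0 : 0 ≤ (1 + ρ + ρ ^ 2) * R ^ 2 := by positivity
  constructor
  · refine abs_le_of_sq_le_sq ?_ (by positivity)
    rw [eR]; linarith [sq_nonneg q]
  · refine abs_le_of_sq_le_sq ?_ (by positivity)
    rw [eR]; linarith [sq_nonneg p]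

lemma Vf_bd {η : ℝ} (hη : 0 < η) {u p q a r W : ℂ → ℝ} {z : ℂ} {ρ n : ℝ} (a0 : 0 < a z)
    (hρ : 0 < ρ) (har : a z * ρ = 1) (hr : |r z| ≤ n)
    (hW : |W z| ≤ (1 + ρ) * Rf η u p q a z * n) (n0 : 0 ≤ n) :
    |Vf η u p q a r W z| ≤ (2 + a z) * n := by
  have R0 := Rf_pos hη (u := u) (p := p) (q := q) a0
  have X0 := Xi_mem hη (u := u) (p := p) (q := q) a0
  unfold Vf
  refine (abs_sub _ _).trans ?_
  rw [abs_mul, abs_mul, abs_mul, abs_mul, abs_of_pos (inv_pos.2 R0), abs_of_pos a0]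
  have h1 : |et (Xi η u p q a z)| * |r z| ≤ 1 * n :=
    mul_le_mul (et_bd X0) hr (abs_nonneg _) zero_le_one
  have h2 : |ka (Xi η u p q a z)| * (Rf η u p q a z)⁻¹ ≤ 1 * (Rf η u p q a z)⁻¹ :=
    mul_le_mul_of_nonneg_right (ka_le X0) (inv_pos.2 R0).le
  have h3 : a z * |W z| ≤ a z * ((1 + ρ) * Rf η u p q a z * n) :=
    mul_le_mul_of_nonneg_left hW a0.le
  have h4 : |ka (Xi η u p q a z)| * (Rf η u p q a z)⁻¹ * (a z * |W z|) ≤
      1 * (Rf η u p q a z)⁻¹ * (a z * ((1 + ρ) * Rf η u p q a z * n)) :=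
    mul_le_mul h2 h3 (by positivity) (by positivity)
  have h5 : 1 * (Rf η u p q a z)⁻¹ * (a z * ((1 + ρ) * Rf η u p q a z * n)) =
      (a z + a z * ρ) * n := by
    field_simp
  rw [h5, har] at h4
  linarith

/-- the sum of the absolute values of the derivatives -/
def NN (h : ℝ) (u : ℂ → ℝ) (z : ℂ) : ℝ :=
  |pd h 1 u z| + |pd h I u z| + |pd h 1 (pd h 1 u) z| + |pd h I (pd h 1 u) z| +
    |pd h I (pd h I u) z|

lemma NN_c (hΩ : IsOpen Ω) {u : ℂ → ℝ} (hu : ContDiffOn ℝ ∞ u Ω) (h : ℝ) :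
    ContinuousOn (NN h u) Ω := by
  have a1 := pd_sm hΩ hu h 1
  have a2 := pd_sm hΩ hu h I
  exact ((((a1.continuousOn.abs).add a2.continuousOn.abs).add
    (pd_sm hΩ a1 h 1).continuousOn.abs).add (pd_sm hΩ a1 h I).continuousOn.abs).add
    (pd_sm hΩ a2 h I).continuousOn.abs

theorem step1 (hΩ : IsOpen Ω) {ρ : ℂ → ℝ} (hρ : ContDiffOn ℝ ∞ ρ Ω) (hρ0 : ∀ z ∈ Ω, 0 < ρ z)
    {φ : ℂ → ℝ} (hφ : TF Ω φ) (hφ0 : ∀ z, 0 ≤ φ z) :
    ∃ C : ℝ, 0 ≤ C ∧ ∀ (h : ℝ) (u : ℂ → ℝ), 0 < h → ContDiffOn ℝ ∞ u Ω →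
      (∀ z ∈ Ω, pd h 1 (pd h 1 u) z + pd h I (pd h I u) z = -(ρ z * u z)) → ∀ η : ℝ, 0 < η →
      ∫ z, φ z * (ρ z * |u z|) ≤
        mm * (∫ z, φ z * (ρ z * Rf η u (pd h 1 u) (pd h I u) (fun z => (ρ z)⁻¹) z)) +
        η * (∫ z, φ z * ρ z) + h * (C * ∫ z in tsupport φ, NN h u z) := by
  obtain ⟨S, hS⟩ : ∃ S : Set ℂ, S = tsupport φ := ⟨_, rfl⟩
  have hSc : IsCompact S := by rw [hS]; exact hφ.2.1
  have hSB : S ⊆ Ω := by rw [hS]; exact hφ.2.2
  have z0 : ∀ z, z ∉ S → φ z = 0 := fun z hz => image_eq_zero_of_notMem_tsupport (by rwa [hS] at hz)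
  have z1 : ∀ v, ∀ z, z ∉ S → fderiv ℝ φ z v = 0 := fun v z hz => by
    rw [fderiv_of_notMem_tsupport ℝ (by rwa [hS] at hz)]; rfl
  rw [← hS]
  obtain ⟨a, ha⟩ : ∃ a : ℂ → ℝ, a = fun z => (ρ z)⁻¹ := ⟨_, rfl⟩
  rw [← ha]
  have sa : ContDiffOn ℝ ∞ a Ω := by
    rw [ha]; exact hρ.inv fun z hz => (hρ0 z hz).ne'
  have a0 : ∀ z ∈ Ω, 0 < a z := fun z hz => by rw [ha]; exact inv_pos.2 (hρ0 z hz)
  have har : ∀ z ∈ Ω, a z * ρ z = 1 := fun z hz => by
    rw [ha]; exact inv_mul_cancel₀ (hρ0 z hz).ne'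
  have cφ : Continuous φ := hφ.1.continuous
  have cφ' : ∀ v, Continuous (fun z => fderiv ℝ φ z v) := fun v =>
    ((hφ.1.fderiv_right (m := ∞) le_rfl).clm_apply contDiff_const).continuous
  obtain ⟨G, hG⟩ : ∃ G : ℂ → ℝ, G = fun z => φ z * (3 * (1 + ρ z) *
      (|fderiv ℝ a z 1| + |fderiv ℝ a z I|)) +
      (2 + a z) * (|fderiv ℝ φ z 1| + |fderiv ℝ φ z I|) := ⟨_, rfl⟩
  have cG : ContinuousOn G S := by
    have cρ : ContinuousOn ρ S := hρ.continuousOn.mono hSB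
    have ca : ContinuousOn a S := sa.continuousOn.mono hSB
    have c1 : ∀ v, ContinuousOn (fun z => |fderiv ℝ a z v|) S := fun v =>
      ((rsd hΩ sa v).continuousOn.mono hSB).abs
    have c2 : ∀ v, ContinuousOn (fun z => |fderiv ℝ φ z v|) S := fun v => (cφ' v).abs.continuousOn
    rw [hG]
    exact (cφ.continuousOn.mul ((continuousOn_const.mul (continuousOn_const.add cρ)).mul
      ((c1 1).add (c1 I)))).add ((continuousOn_const.add ca).mul ((c2 1).add (c2 I)))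
  obtain ⟨C, hC⟩ := hSc.exists_bound_of_continuousOn cG
  refine ⟨|C|, abs_nonneg C, fun h u hh hu he η hη => ?_⟩
  obtain ⟨p, hp⟩ : ∃ p, p = pd h 1 u := ⟨_, rfl⟩
  obtain ⟨q, hq⟩ : ∃ q, q = pd h I u := ⟨_, rfl⟩
  obtain ⟨A, hA⟩ : ∃ A, A = pd h 1 p := ⟨_, rfl⟩
  obtain ⟨B, hB⟩ : ∃ B, B = pd h I p := ⟨_, rfl⟩
  obtain ⟨D, hD⟩ : ∃ D, D = pd h I q := ⟨_, rfl⟩
  have sp : ContDiffOn ℝ ∞ p Ω := by rw [hp]; exact pd_sm hΩ hu h 1
  have sq : ContDiffOn ℝ ∞ q Ω := by rw [hq]; exact pd_sm hΩ hu h I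
  have sA : ContDiffOn ℝ ∞ A Ω := by rw [hA]; exact pd_sm hΩ sp h 1
  have sB : ContDiffOn ℝ ∞ B Ω := by rw [hB]; exact pd_sm hΩ sp h I
  have sD : ContDiffOn ℝ ∞ D Ω := by rw [hD]; exact pd_sm hΩ sq h I
  have one : ∀ {f : ℂ → ℝ}, ContDiffOn ℝ ∞ f Ω → ContDiffOn ℝ 1 f Ω := fun hf =>
    hf.of_le (by exact_mod_cast le_top)
  have Bq : ∀ z ∈ Ω, B z = pd h 1 q z := fun z hz => by
    rw [hB, hp, hq]; exact pd_comm hΩ hu h I 1 hz
  obtain ⟨R, hR⟩ : ∃ R, R = Rf η u p q a := ⟨_, rfl⟩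
  obtain ⟨V₁, hV₁⟩ : ∃ V₁, V₁ = Vf η u p q a p (fun w => B w * q w - D w * p w) := ⟨_, rfl⟩
  obtain ⟨V₂, hV₂⟩ : ∃ V₂, V₂ = Vf η u p q a q (fun w => B w * p w - A w * q w) := ⟨_, rfl⟩
  have sV₁ : ContDiffOn ℝ 1 V₁ Ω := by
    rw [hV₁]
    exact Vf_cd hη (one hu) (one sp) (one sq) (one sa) a0 (one sp)
      (one ((sB.mul sq).sub (sD.mul sp)))
  have sV₂ : ContDiffOn ℝ 1 V₂ Ω := by
    rw [hV₂]
    exact Vf_cd hη (one hu) (one sp) (one sq) (one sa) a0 (one sq)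
      (one ((sB.mul sp).sub (sA.mul sq)))
  have sR : ContDiffOn ℝ 1 R Ω := by
    rw [hR]; exact Rf_cd hη (one hu) (one sp) (one sq) (one sa) a0
  obtain ⟨i1, j1⟩ := div_zero' hΩ hφ sV₁ 1
  obtain ⟨i2, j2⟩ := div_zero' hΩ hφ sV₂ I
  have cN : ContinuousOn (NN h u) S := (NN_c hΩ hu h).mono hSB
  have N0 : ∀ z, 0 ≤ NN h u z := fun z => by unfold NN; positivity
  have Ne : ∀ z, NN h u z = |p z| + |q z| + |A z| + |B z| + |D z| := fun z => by
    rw [hA, hB, hD, hp, hq]; rfl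
  have pt : ∀ z, φ z * (ρ z * |u z|) ≤ mm * (φ z * (ρ z * R z)) + η * (φ z * ρ z) -
      h * ((φ z * fderiv ℝ V₁ z 1 + V₁ z * fderiv ℝ φ z 1) +
        (φ z * fderiv ℝ V₂ z I + V₂ z * fderiv ℝ φ z I)) +
      h * (|C| * S.indicator (NN h u) z) := by
    intro z
    by_cases hzS : z ∈ S
    · have hz := hSB hzS
      rw [Set.indicator_of_mem hzS]
      have e1 : HD h u z (p z) (q z) := by rw [hp, hq]; exact pd_HD hΩ hu h hz
      have e2 : HD h p z (A z) (B z) := by rw [hA, hB]; exact pd_HD hΩ sp h hz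
      have e3 : HD h q z (B z) (D z) := by
        rw [Bq z hz, hD]; exact pd_HD hΩ sq h hz
      have e4 : HD h A z (pd h 1 A z) (pd h 1 B z) := by
        have : pd h 1 B z = pd h I A z := by
          rw [hA, hB]; exact pd_comm hΩ sp h 1 I hz
        rw [this]; exact pd_HD hΩ sA h hz
      have e5 : HD h B z (pd h 1 B z) (pd h 1 D z) := by
        have : pd h 1 D z = pd h I B z := by
          rw [hD, pd_comm hΩ sq h 1 I hz]
          exact (pd_congr hΩ Bq h I hz).symm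
        rw [this]; exact pd_HD hΩ sB h hz
      have e6 : HD h D z (pd h 1 D z) (pd h I D z) := pd_HD hΩ sD h hz
      have e7 : HD h a z (h * fderiv ℝ a z 1) (h * fderiv ℝ a z I) := HD.of (rdA hΩ sa hz)
      have e8 : A z + D z = -(ρ z * u z) := by
        rw [hA, hD, hp, hq]; exact he z hz
      obtain ⟨v₁₁, v₁₂, v₂₁, v₂₂, w1, w2, w3⟩ :=
        field_HD hη e1 e2 e3 e4 e5 e6 e7 (a0 z hz) (har z hz) e8
      rw [← hV₁] at w1
      rw [← hV₂] at w2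
      rw [← hR, ← Ne z] at w3
      have w1' := w1.fd.2.1
      have w2' := w2.fd.2.2
      have ρz := hρ0 z hz
      have az := a0 z hz
      have R0 : 0 < R z := by rw [hR]; exact Rf_pos hη az
      have R2 : R z ^ 2 = u z ^ 2 + a z * (p z ^ 2 + q z ^ 2) + η ^ 2 := by
        rw [hR]; exact Rf_sq az
      obtain ⟨pb, qb⟩ := pq_bd az ρz (har z hz) R0 R2
      have nz := N0 z
      have p0 := abs_nonneg (p z)
      have q0 := abs_nonneg (q z)
      have A0 := abs_nonneg (A z)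
      have B0 := abs_nonneg (B z)
      have D0 := abs_nonneg (D z)
      have Nez := Ne z
      have b1 : |B z * q z - D z * p z| ≤ (1 + ρ z) * R z * NN h u z := by
        calc |B z * q z - D z * p z| ≤ |B z * q z| + |D z * p z| := abs_sub _ _
          _ = |B z| * |q z| + |D z| * |p z| := by rw [abs_mul, abs_mul]
          _ ≤ |B z| * ((1 + ρ z) * R z) + |D z| * ((1 + ρ z) * R z) := by gcongr
          _ = (1 + ρ z) * R z * (|B z| + |D z|) := by ring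
          _ ≤ (1 + ρ z) * R z * NN h u z := by
            refine mul_le_mul_of_nonneg_left ?_ (by positivity)
            linarith
      have b2 : |B z * p z - A z * q z| ≤ (1 + ρ z) * R z * NN h u z := by
        calc |B z * p z - A z * q z| ≤ |B z * p z| + |A z * q z| := abs_sub _ _
          _ = |B z| * |p z| + |A z| * |q z| := by rw [abs_mul, abs_mul]
          _ ≤ |B z| * ((1 + ρ z) * R z) + |A z| * ((1 + ρ z) * R z) := by gcongr
          _ = (1 + ρ z) * R z * (|B z| + |A z|) := by ring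
          _ ≤ (1 + ρ z) * R z * NN h u z := by
            refine mul_le_mul_of_nonneg_left ?_ (by positivity)
            linarith
      have V1b : |V₁ z| ≤ (2 + a z) * NN h u z := by
        rw [hR] at b1
        rw [hV₁]; exact Vf_bd hη az ρz (har z hz) (by linarith) b1 nz
      have V2b : |V₂ z| ≤ (2 + a z) * NN h u z := by
        rw [hR] at b2
        rw [hV₂]; exact Vf_bd hη az ρz (har z hz) (by linarith) b2 nz
      have GC : G z ≤ |C| := (le_abs_self _).trans ((hC z hzS).trans (le_abs_self C))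
      have Gz : G z = φ z * (3 * (1 + ρ z) * (|fderiv ℝ a z 1| + |fderiv ℝ a z I|)) +
        (2 + a z) * (|fderiv ℝ φ z 1| + |fderiv ℝ φ z I|) := by rw [hG]
      have k1 := mul_le_mul_of_nonneg_left w3 (hφ0 z)
      have k2 : V₁ z * fderiv ℝ φ z 1 ≤ (2 + a z) * NN h u z * |fderiv ℝ φ z 1| := by
        refine (le_abs_self _).trans ?_
        rw [abs_mul]
        exact mul_le_mul_of_nonneg_right V1b (abs_nonneg _)
      have k3 : V₂ z * fderiv ℝ φ z I ≤ (2 + a z) * NN h u z * |fderiv ℝ φ z I| := by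
        refine (le_abs_self _).trans ?_
        rw [abs_mul]
        exact mul_le_mul_of_nonneg_right V2b (abs_nonneg _)
      have k4 : G z * NN h u z ≤ |C| * NN h u z := mul_le_mul_of_nonneg_right GC nz
      have k5 := mul_le_mul_of_nonneg_left k2 hh.le
      have k6 := mul_le_mul_of_nonneg_left k3 hh.le
      have k7 := mul_le_mul_of_nonneg_left k4 hh.le
      rw [Gz] at k7
      have eh1 : |h * fderiv ℝ a z 1| = h * |fderiv ℝ a z 1| := by rw [abs_mul, abs_of_pos hh]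
      have eh2 : |h * fderiv ℝ a z I| = h * |fderiv ℝ a z I| := by rw [abs_mul, abs_of_pos hh]
      rw [eh1, eh2] at k1
      have e9 : h * ((φ z * fderiv ℝ V₁ z 1 + V₁ z * fderiv ℝ φ z 1) +
          (φ z * fderiv ℝ V₂ z I + V₂ z * fderiv ℝ φ z I)) =
          φ z * (v₁₁ + v₂₂) + h * (V₁ z * fderiv ℝ φ z 1) + h * (V₂ z * fderiv ℝ φ z I) := by
        rw [← w1', ← w2']; ring
      rw [e9]
      linarith
    · rw [z0 z hzS, z1 1 z hzS, z1 I z hzS, Set.indicator_of_notMem hzS]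
      simp
  -- integrate
  have k1 : Integrable (fun z => φ z * (ρ z * |u z|)) :=
    rint hSc (cφ.continuousOn.mul ((hρ.continuousOn.mul hu.continuousOn.abs).mono hSB))
      fun z hz => by rw [z0 z hz, zero_mul]
  have k2 : Integrable (fun z => φ z * (ρ z * R z)) :=
    rint hSc (cφ.continuousOn.mul ((hρ.continuousOn.mul sR.continuousOn).mono hSB))
      fun z hz => by rw [z0 z hz, zero_mul]
  have k3 : Integrable (fun z => φ z * ρ z) :=
    rint hSc (cφ.continuousOn.mul (hρ.continuousOn.mono hSB))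
      fun z hz => by rw [z0 z hz, zero_mul]
  have k4 : Integrable (S.indicator (NN h u)) :=
    (cN.integrableOn_compact hSc).integrable_indicator hSc.measurableSet
  have l1 : Integrable (fun z => mm * (φ z * (ρ z * R z))) := k2.const_mul _
  have l2 : Integrable (fun z => η * (φ z * ρ z)) := k3.const_mul _
  have l3 : Integrable (fun z => h * ((φ z * fderiv ℝ V₁ z 1 + V₁ z * fderiv ℝ φ z 1) +
        (φ z * fderiv ℝ V₂ z I + V₂ z * fderiv ℝ φ z I))) := (i1.add i2).const_mul _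
  have l4 : Integrable (fun z => h * (|C| * S.indicator (NN h u) z)) :=
    (k4.const_mul _).const_mul _
  have l12 : Integrable (fun z => mm * (φ z * (ρ z * R z)) + η * (φ z * ρ z)) := l1.add l2
  have l123 : Integrable (fun z => mm * (φ z * (ρ z * R z)) + η * (φ z * ρ z) -
      h * ((φ z * fderiv ℝ V₁ z 1 + V₁ z * fderiv ℝ φ z 1) +
        (φ z * fderiv ℝ V₂ z I + V₂ z * fderiv ℝ φ z I))) := l12.sub l3
  have tot := integral_mono k1 (l123.add l4) pt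
  have ev : ∫ z, (mm * (φ z * (ρ z * R z)) + η * (φ z * ρ z) -
      h * ((φ z * fderiv ℝ V₁ z 1 + V₁ z * fderiv ℝ φ z 1) +
        (φ z * fderiv ℝ V₂ z I + V₂ z * fderiv ℝ φ z I)) +
      h * (|C| * S.indicator (NN h u) z)) = mm * (∫ z, φ z * (ρ z * R z)) +
      η * (∫ z, φ z * ρ z) + h * (|C| * ∫ z in S, NN h u z) := by
    rw [integral_add l123 l4, integral_sub l12 l3, integral_add l1 l2, integral_const_mul,
      integral_const_mul, integral_const_mul, integral_const_mul, integral_const_mul,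
      integral_add i1 i2, j1, j2, integral_indicator hSc.measurableSet]
    ring
  rw [← hp, ← hq, ← hR]
  exact tot.trans (le_of_eq ev)

end

end Pool.Agent.Helper61A.PW
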